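import Pool.Agent.L0h14.HO.CFin

/-!
# Periods of families with maximally unipotent monodromy whose nearest singularity is a pseudo-reflection

We consider families of motives over `ℚ` near a point `z = 0` with maximally unipotent monodromy: their matrices of solutions
are `Y(z) = H(z) exp(N log z)`, where `N` is a nilpotent matrix with `N^(n-1) ≠ 0`, and the entries of `H` and of `H⁻¹`
are G-functions with rational coefficients. We assume that `H` converges for `|z| < ρ` and that the local monodromy `T` of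
`Y` at the singularity `ρ > 0` is a pseudo-reflection, `T = 1 - u pᵀ`, with `tr(N^(n-1) (1 - T)) ≠ 0` (the solution which is
holomorphic at `0` is moved by `T`, and the difference contains the highest power of the logarithm). This is the situation of the
families of Calabi-Yau varieties and of the Apéry-like differential equations near a point of maximal degeneration, where `ρ`
is the nearest conifold point. The group generated by `exp(s N)` and `T` preserves a nondegenerate alternating form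
(symplectic type), or a nondegenerate symmetric form (orthogonal type), or no nondegenerate bilinear form (linear type);
we show that there are no other cases.

The periods of the fibre at `z = 1 / t` are the entries of `Y(1 / t) Ω`, where `Ω` is a constant matrix (the periods of the
limit motive). We prove for `k` such fibres, at `k` points and possibly of different families: for almost all `k`-tuples of
integers `t_i` in any box all relations of bounded degree between the numbers `log t_i` and the periods, over any finite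
dimensional space of constants, vanish on `ℂ^k × ∏_i Y_i(1 / t_i) G_i Ω_i`, where `G_i` is the symplectic group, the orthogonal
group or the special linear group.
-/

set_option autoImplicit false

open PowerSeries Module

namespace Pool.Agent.Results.MP_57341d_ag.ConifoldFamilies

/-- an integer polynomial as a power series with rational coefficients -/
noncomputable def toQ (P : Polynomial ℤ) : PowerSeries ℚ := ((P.map (Int.castRingHom ℚ) : Polynomial ℚ) : PowerSeries ℚ)

/-- The arithmetic conditions in the definition of a G-function, for a power series with rational coefficients: geometric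
growth of the coefficients and of their common denominators. -/
def GCond (g : ℚ⟦X⟧) : Prop := ∃ C : ℝ, (∀ m, |((coeff m g : ℚ) : ℝ)| ≤ C ^ (m + 1)) ∧
  ∀ m, ∃ d : ℕ, 0 < d ∧ (d : ℝ) ≤ C ^ (m + 1) ∧ ∀ j ≤ m, ∃ a : ℤ, (d : ℚ) * coeff j g = a

/-- The data of a family: the logarithm `N` of the monodromy at `0`, the holomorphic part `H` of the solutions, the nearest
singularity `ρ` and the local monodromy `T` at `ρ`. -/
structure Data (n : ℕ) where
  N : Matrix (Fin n) (Fin n) ℤ
  H : Matrix (Fin n) (Fin n) ℚ⟦X⟧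
  ρ : ℝ
  T : Matrix (Fin n) (Fin n) ℂ

/-- the matrix `N` with complex entries -/
def Data.Nc {n : ℕ} (F : Data n) : Matrix (Fin n) (Fin n) ℂ := F.N.map (Int.cast : ℤ → ℂ)

/-- the matrix `Y(x) = H(x) exp(N log x)` -/
noncomputable def Data.Y {n : ℕ} (F : Data n) (x : ℝ) : Matrix (Fin n) (Fin n) ℂ :=
  (Matrix.of fun i j => ∑' m : ℕ, ((coeff m (F.H i j) : ℚ) : ℂ) * (x : ℂ) ^ m) *
    ∑ l ∈ Finset.range n, ((Real.log x ^ l / l.factorial : ℝ) : ℂ) • F.Nc ^ l

/-- The conditions on the data: `N^n = 0`, `H(0) = 1`, the differential equation `T₁ (z H' + H N) = A H` with integer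
polynomials, the entries of `H` and of its inverse are G-functions, the entries of `H` converge for `|z| < ρ`, the local
monodromy at `ρ`, that is the continuation `Φ` of `Y(ρ (1 - e^s))` to a half plane `Re s < log ε` satisfies
`Φ(s + 2 π i) = Φ(s) T`, and `T` is an invertible pseudo-reflection with `tr(N^(n-1) (1 - T)) ≠ 0`. -/
structure Data.Good {n : ℕ} (F : Data n) : Prop where
  nil : F.N ^ n = 0
  init : ∀ i j, coeff 0 (F.H i j) = if i = j then 1 else 0
  ode : ∃ (T₁ : Polynomial ℤ) (A : Matrix (Fin n) (Fin n) (Polynomial ℤ)), T₁ ≠ 0 ∧ ∀ i j,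
    toQ T₁ * (X * PowerSeries.derivative ℚ (F.H i j) + ∑ k, F.H i k * C (F.N k j : ℚ)) = ∑ k, toQ (A i k) * F.H k j
  gfun : ∀ i j, GCond (F.H i j)
  gfun_inv : ∃ W : Matrix (Fin n) (Fin n) ℚ⟦X⟧, F.H * W = 1 ∧ ∀ i j, GCond (W i j)
  pos : 0 < F.ρ
  conv : ∀ r : ℝ, 0 < r → r < F.ρ → ∀ i j, Summable fun m : ℕ => |((coeff m (F.H i j) : ℚ) : ℝ)| * r ^ m
  mono : ∃ (ε : ℝ) (Φ : ℂ → Matrix (Fin n) (Fin n) ℂ), 0 < ε ∧ ε ≤ 1 ∧
    (∀ i j, AnalyticOnNhd ℂ (fun s => Φ s i j) {s | s.re < Real.log ε}) ∧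
    (∀ x : ℝ, 1 - ε < x → x < 1 → F.Y (F.ρ * x) = Φ (Real.log (1 - x) : ℝ)) ∧
    ∀ s : ℂ, s.re < Real.log ε → Φ (s + 2 * Real.pi * Complex.I) = Φ s * F.T
  refl : ∃ u p : Fin n → ℂ, F.T = 1 - Matrix.vecMulVec u p
  det : F.T.det ≠ 0
  corner : (F.Nc ^ (n - 1) * (1 - F.T)).trace ≠ 0

/-- the types of families; `J` is the matrix of the intersection form -/
inductive Kind (n : ℕ)
  | symplectic (J : Matrix (Fin n) (Fin n) ℂ)
  | orthogonal (J : Matrix (Fin n) (Fin n) ℂ)
  | linear

/-- The conditions of the types: `J` is a nondegenerate alternating or symmetric form which is preserved by the group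
generated by `exp(s N)` and `T`, or there is no nondegenerate bilinear form which is preserved by this group. -/
def Data.Admissible {n : ℕ} (F : Data n) : Kind n → Prop
  | Kind.symplectic J => J.transpose = -J ∧ J.det ≠ 0 ∧ F.Nc.transpose * J + J * F.Nc = 0 ∧ F.T.transpose * J * F.T = J
  | Kind.orthogonal J => J.transpose = J ∧ J.det ≠ 0 ∧ F.Nc.transpose * J + J * F.Nc = 0 ∧ F.T.transpose * J * F.T = J
  | Kind.linear => ∀ J : Matrix (Fin n) (Fin n) ℂ, J.det ≠ 0 → F.Nc.transpose * J + J * F.Nc = 0 →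
      F.T.transpose * J * F.T ≠ J

/-- the symplectic group, the orthogonal group and the special linear group -/
def Group {n : ℕ} : Kind n → Set (Matrix (Fin n) (Fin n) ℂ)
  | Kind.symplectic J => {g | g.transpose * J * g = J}
  | Kind.orthogonal J => {g | g.transpose * J * g = J}
  | Kind.linear => {g | g.det = 1}

/-- the point with the coordinates `l_i` and the entries of the matrices `X_i` -/
def point {k : ℕ} {n : Fin k → ℕ} (l : Fin k → ℂ) (X : ∀ i, Matrix (Fin (n i)) (Fin (n i)) ℂ) :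
    (Σ i : Fin k, Option (Fin (n i) × Fin (n i))) → ℂ
  | ⟨i, none⟩ => l i
  | ⟨i, some p⟩ => X i p.1 p.2

/-- There is a polynomial relation of degree `≤ δ` with coefficients in `V` between the numbers `log t_i` and the
entries of the matrices `Y_i(1 / t_i) Ω_i` which does not vanish identically on `ℂ^k × ∏_i Y_i(1 / t_i) G_i Ω_i`. -/
def Exceptional (δ : ℕ) (V : Submodule ℚ ℂ) {k : ℕ} {n : Fin k → ℕ} (F : ∀ i, Data (n i)) (κ : ∀ i, Kind (n i))
    (Ω : ∀ i, Matrix (Fin (n i)) (Fin (n i)) ℂ) (t : Fin k → ℕ) : Prop :=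
  ∃ P : MvPolynomial (Σ i : Fin k, Option (Fin (n i) × Fin (n i))) ℂ, P.totalDegree ≤ δ ∧ (∀ s, P.coeff s ∈ V) ∧
    MvPolynomial.aeval (point (fun i => ((Real.log (t i) : ℝ) : ℂ)) fun i => (F i).Y (1 / t i) * Ω i) P = 0 ∧
    ∃ (l : Fin k → ℂ) (g : ∀ i, Matrix (Fin (n i)) (Fin (n i)) ℂ), (∀ i, g i ∈ Group (κ i)) ∧
      MvPolynomial.aeval (point l fun i => (F i).Y (1 / t i) * g i * Ω i) P ≠ 0

/-! ### The system -/

/-- the matrix `N` with rational entries -/
def Data.Nq {n : ℕ} (F : Data n) : Matrix (Fin n) (Fin n) ℚ := F.N.map (Int.cast : ℤ → ℚ)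

theorem Nq_cm {n : ℕ} (F : Data n) : Pool.Agent.Y119.HY.cm F.Nq = F.Nc := by
  ext i j
  rw [Pool.Agent.Y119.HY.cm_apply]
  unfold Data.Nq Data.Nc
  simp

theorem sdc {g : ℚ⟦X⟧} (h : GCond g) : Pool.Agent.Y113.SDc g := by
  obtain ⟨C, h1, h2⟩ := h
  have hC : 1 ≤ C := by
    obtain ⟨d, hd0, hd, -⟩ := h2 0
    have : (1 : ℝ) ≤ d := by exact_mod_cast hd0
    simpa using this.trans hd
  obtain ⟨a, ha⟩ := Pool.Agent.Y678.HG.exists_two_pow C
  refine ⟨a, fun m => (h1 m).trans (pow_le_pow_left₀ (by linarith) ha _), fun m => ?_⟩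
  obtain ⟨d, hd0, hd, hd'⟩ := h2 m
  exact ⟨d, hd0, hd.trans (pow_le_pow_left₀ (by linarith) ha _), hd'⟩

theorem Y_eq {n : ℕ} (F : Data n) {x : ℝ} (hx : 0 < x) :
    F.Y x = Pool.Agent.Y119.HY.Yf (Pool.Agent.Y119.HY.cm F.Nq) (Pool.Agent.L0h14.HO.Hcc F.H) (x : ℂ) := by
  unfold Data.Y Pool.Agent.Y119.HY.Yf
  congr 1
  unfold Pool.Agent.Y119.HY.E
  refine Finset.sum_congr rfl fun l _ => ?_
  rw [Nq_cm, ← Complex.ofReal_log hx.le]
  congr 1
  push_cast
  rfl

theorem Yg_eq {n : ℕ} (F : Data n) {t : ℕ} (ht : 0 < t) :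
    F.Y (1 / t) = Pool.Agent.L0h14.HO.Yg F.Nq F.H t := by
  have ht0 : (0 : ℝ) < t := by exact_mod_cast ht
  rw [Y_eq F (by positivity)]
  unfold Pool.Agent.Y119.HY.Yf Pool.Agent.L0h14.HO.Yg
  congr 2
  rw [← Complex.ofReal_log (by positivity), one_div, Real.log_inv]
  push_cast
  rfl

/-- the group as a monoid -/
def grp {n : ℕ} : Kind n → Submonoid (Matrix (Fin n) (Fin n) ℂ)
  | Kind.symplectic J => Pool.Agent.L0h14.HO.isoM J
  | Kind.orthogonal J => Pool.Agent.L0h14.HO.isoM J
  | Kind.linear => Pool.Agent.L0h14.HO.detM n 1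

theorem mem_grp {n : ℕ} {κ : Kind n} {g : Matrix (Fin n) (Fin n) ℂ} : g ∈ grp κ ↔ g ∈ Group κ := by
  rcases κ with J | J | _
  · exact Iff.rfl
  · exact Iff.rfl
  · show g.det ^ 1 = 1 ↔ g.det = 1
    rw [pow_one]

theorem system {n : ℕ} {F : Data n} (h : F.Good) {κ : Kind n} (hκ : F.Admissible κ) :
    Pool.Agent.L0h14.HO.SYR n F.Nq F.H (grp κ) F.ρ := by
  have hnil : F.Nq ^ n = 0 := by
    have h1 := map_pow (RingHom.mapMatrix (Int.castRingHom ℚ)) F.N n
    rw [h.nil, map_zero] at h1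
    exact h1.symm
  have hcv : ∀ t : ℝ, 1 / F.ρ < t → ∀ i j, Pool.Agent.Y113.Cv t (F.H i j) := by
    intro t ht i j
    have hρ := h.pos
    have h0 : 0 < t := lt_trans (by positivity) ht
    refine h.conv (1 / t) (by positivity) ?_ i j
    rw [div_lt_iff₀ h0]
    rw [div_lt_iff₀ hρ] at ht
    linarith
  obtain ⟨u, p, hT⟩ := h.refl
  have hMR : Pool.Agent.L0h14.HO.MR F.Nq F.H F.ρ u p := by
    refine ⟨hnil, h.pos, hcv, ?_, ?_, ?_⟩
    · have h1 := h.corner
      rw [hT, sub_sub_cancel, Matrix.mul_vecMulVec, Matrix.trace_vecMulVec, dotProduct_comm] at h1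
      rw [Nq_cm]
      exact h1
    · rw [← hT]
      exact h.det
    · obtain ⟨ε, Φ, h1, h2, h3, h4, h5⟩ := h.mono
      refine ⟨ε, Φ, h1, h2, h3, fun x hx hx1 => ?_, fun s hs => ?_⟩
      · have h6 : 0 < F.ρ * x := mul_pos h.pos (by linarith)
        rw [← Complex.ofReal_mul, ← Y_eq F h6]
        exact h4 x hx hx1
      · rw [← hT]
        exact h5 s hs
  have hpos : 1 ≤ n := by
    rcases Nat.eq_zero_or_pos n with h0 | h0
    · subst h0
      exact absurd (by simp [Matrix.trace]) h.corner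
    · exact h0
  obtain ⟨T₁, A, hT1, hode⟩ := h.ode
  obtain ⟨W, hW1, hW2⟩ := h.gfun_inv
  have hNc : F.Nc ^ n = 0 := by
    rw [← Nq_cm]
    exact Pool.Agent.L0h14.HO.cmN_nil hnil
  have key : (∀ s : ℂ, Pool.Agent.Y119.HY.E (Pool.Agent.Y119.HY.cm F.Nq) s ∈ grp κ) → (∀ g ∈ grp κ, g ∈
      Pool.Agent.Y119.HY.Gal fun z => Pool.Agent.Y119.HY.Yf (Pool.Agent.Y119.HY.cm F.Nq) (Pool.Agent.L0h14.HO.Hcc F.H)
        ((F.ρ : ℂ) * z)) → Pool.Agent.L0h14.HO.SYR n F.Nq F.H (grp κ) F.ρ := by
    intro k1 k2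
    exact
      { nil := hnil
        int := ⟨fun i j => F.N i j, fun i j => rfl⟩
        ode := ⟨T₁, fun i j => A i j, hT1, fun i j => hode i j⟩
        h0 := h.init
        sdc := fun i j => sdc (h.gfun i j)
        wex := ⟨W, hW1, fun i j => sdc (hW2 i j)⟩
        pos := h.pos
        cv := hcv
        unip := k1
        inv := k2 }
  rcases κ with J | J | _
  · obtain ⟨h1, h2, h3, h4⟩ := hκ
    refine key (fun s => ?_) fun g hg => ?_
    · rw [Nq_cm]
      exact Pool.Agent.Y119.HY.E_isom hNc h3 s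
    · rw [← Nq_cm] at h3
      rw [hT] at h4
      exact hMR.sp h1 h2 h3 h4 g hg
  · obtain ⟨h1, h2, h3, h4⟩ := hκ
    refine key (fun s => ?_) fun g hg => ?_
    · rw [Nq_cm]
      exact Pool.Agent.Y119.HY.E_isom hNc h3 s
    · rw [← Nq_cm] at h3
      rw [hT] at h4
      exact hMR.so h1 h2 h3 h4 g hg
  · have hform : ∀ J : Matrix (Fin n) (Fin n) ℂ, J.det ≠ 0 → F.Nc.transpose * J + J * F.Nc = 0 →
      F.T.transpose * J * F.T ≠ J := hκ
    refine key (fun s => ?_) fun g hg => ?_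
    · show (Pool.Agent.Y119.HY.E (Pool.Agent.Y119.HY.cm F.Nq) s).det ^ 1 = 1
      rw [Nq_cm, Pool.Agent.L0h14.HO.det_EN hNc, one_pow]
    · rw [hT, ← Nq_cm] at hform
      have hg' : g.det ^ 1 = 1 := hg
      rw [pow_one] at hg'
      exact hMR.sl hpos hform g hg'

/-- **The trichotomy**: there are no other types. -/
theorem types {n : ℕ} {F : Data n} (h : F.Good) : ∃ κ : Kind n, F.Admissible κ := by
  obtain ⟨u, p, hT⟩ := h.refl
  have hN : F.Nc ^ n = 0 := by
    have h1 := map_pow (RingHom.mapMatrix (Int.castRingHom ℂ)) F.N n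
    rw [h.nil, map_zero] at h1
    exact h1.symm
  have hc : p ⬝ᵥ ((F.Nc ^ (n - 1)).mulVec u) ≠ 0 := by
    have h1 := h.corner
    rw [hT, sub_sub_cancel, Matrix.mul_vecMulVec, Matrix.trace_vecMulVec, dotProduct_comm] at h1
    exact h1
  rcases Pool.Agent.L0h14.HO.tri_form hN hc with ⟨J, h1⟩ | ⟨J, h1⟩ | h1
  · refine ⟨Kind.symplectic J, ?_⟩
    show _ ∧ _ ∧ _ ∧ F.T.transpose * J * F.T = J
    rw [hT]
    exact h1
  · refine ⟨Kind.orthogonal J, ?_⟩
    show _ ∧ _ ∧ _ ∧ F.T.transpose * J * F.T = J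
    rw [hT]
    exact h1
  · refine ⟨Kind.linear, ?_⟩
    show ∀ J : Matrix (Fin n) (Fin n) ℂ, J.det ≠ 0 → F.Nc.transpose * J + J * F.Nc = 0 → F.T.transpose * J * F.T ≠ J
    rw [hT]
    exact h1

/-- Let `F_1, …, F_k` be good families. They have types: `exp(s N)` and the local monodromy at `ρ` preserve a nondegenerate
alternating form `J`, and `G_i = Sp(J)`, or a nondegenerate symmetric form `J`, and `G_i = O(J)`, or no nondegenerate bilinear form,
and `G_i = SL_n`. For all `δ` and `D` there are `c > 0` and `C` such that for every `ℚ`-space `V` of complex numbers of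
dimension `≤ D`, all complex matrices `Ω_i` and every box `∏_i (x_i, x_i + B]` with `ρ_i x_i ≥ 1` the following holds for all but
`C B^(k-1) ∑_i (1 + B / (x_i + B)^c)` integral points `t` of the box: every polynomial relation of degree `≤ δ` with
coefficients in `V` between the numbers `log t_i` and the entries of the matrices `Y_i(1 / t_i) Ω_i` vanishes identically on
`ℂ^k × ∏_i Y_i(1 / t_i) G_i Ω_i`. -/
theorem result {k : ℕ} {n : Fin k → ℕ} (F : ∀ i, Data (n i)) (hF : ∀ i, (F i).Good) :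
    ∃ κ : ∀ i, Kind (n i), (∀ i, (F i).Admissible (κ i)) ∧ ∀ δ D : ℕ, ∃ c C : ℝ, 0 < c ∧
      ∀ V : Submodule ℚ ℂ, Module.Finite ℚ V → Module.finrank ℚ V ≤ D →
      ∀ (Ω : ∀ i, Matrix (Fin (n i)) (Fin (n i)) ℂ) (x : Fin k → ℕ) (B : ℕ), (∀ i, 1 ≤ (F i).ρ * x i) → 1 ≤ B →
      (({t : Fin k → ℕ | (∀ i, x i < t i ∧ t i ≤ x i + B) ∧ Exceptional δ V F κ Ω t}.ncard : ℕ) : ℝ) ≤
        C * (B : ℝ) ^ (k - 1) * ∑ i, (1 + B / ((x i : ℝ) + B) ^ c) := by
  classical
  choose κ hκ using fun i => types (hF i)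
  refine ⟨κ, hκ, fun δ D => ?_⟩
  have hS := fun i => system (hF i) (hκ i)
  obtain ⟨c, C, hc, -, hmain⟩ := Pool.Agent.L0h14.HO.tuplesR k δ D n (fun i => (F i).Nq) (fun i => (F i).H)
    (fun i => grp (κ i)) (fun i => (F i).ρ) hS
  refine ⟨c, C, hc, ?_⟩
  intro V hVf hV Ω x B hx hB
  set S := {t : Fin k → ℕ | (∀ i, x i < t i ∧ t i ≤ x i + B) ∧ Exceptional δ V F κ Ω t} with hSd
  have hfin : S.Finite := by
    refine (Set.finite_Iic (fun i : Fin k => x i + B)).subset ?_
    intro t ht i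
    exact (ht.1 i).2
  rw [Set.ncard_eq_toFinset_card S hfin]
  refine hmain V hV Ω x B hx hB _ fun t ht => ?_
  have ht' : t ∈ S := hfin.mem_toFinset.1 ht
  obtain ⟨hbox, P, h1, h2, h3, l, g, hg, h4⟩ := ht'
  have ht0 : ∀ i, 0 < t i := fun i => lt_of_le_of_lt (Nat.zero_le _) (hbox i).1
  have e1 : ∀ (l : Fin k → ℂ) (X : ∀ i, Matrix (Fin (n i)) (Fin (n i)) ℂ), point l X = Pool.Agent.Y119.HZ.pw l X := by
    intro l X
    funext v
    obtain ⟨i, _ | p⟩ := v <;> rfl
  have e2 : ∀ i, (F i).Y (1 / t i) = Pool.Agent.L0h14.HO.Yg (F i).Nq (F i).H (t i) := fun i => Yg_eq (F i) (ht0 i)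
  simp only [e1, e2] at h3 h4
  exact ⟨hbox, P, h1, h2, h3, l, g, fun i => mem_grp.2 (hg i), h4⟩

end Pool.Agent.Results.MP_57341d_ag.ConifoldFamilies
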