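import Pool.Agent.L0h12.PT.Rcd
import Pool.Agent.L0h12.CM.Prime
import Pool.Agent.R917.MT

set_option autoImplicit false

/-!
# The period torsors of the motives of K3 surfaces, of abelian varieties with complex
# multiplication, and of their products with rigid abelian varieties

Let `A` be an abelian variety over `ℚ̄` and let `M` be any André motive over `ℚ̄` in the tensor
category generated by `h^1(A)` and the Tate motives. Let `P` be the matrix of the periods of `M`, and
let `G ⊆ GL(H_B(M))` be *any* algebraic group over `ℚ` such that the comparison isomorphism of `M` is a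
point of a torsor of `G` defined over `ℚ̄`: `P T ∈ G(ℂ)` for some matrix `T` with algebraic entries. By
theorems of Deligne and André the motivic Galois group of `M` is its Mumford-Tate group `MT(M)`. The
equality in Q1 implies that every such `G` contains `MT(M)` (if `G` does not contain `MT(M)`, then the
intersection of the two groups has smaller dimension, and the transcendence degree is at most this
dimension).

Let `E` be a CM field, and `q ≥ 1`. The abelian variety `A` is of *unitary type* `(E, q)`
(`TypeUnitary`) if there are operators `w σ i` on `H_1(A, ℂ)`, for the complex embeddings `σ` of `E`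
and `1 ≤ i ≤ q`, with the relations of the Clifford algebra `w σ i * w σ' i + w σ' i * w σ i = 1`,
where `σ'` is the complex conjugate of `σ`, while all the other pairs anticommute, such that the
complexified Lie algebra `𝔤 ⊗ ℂ` of the Hodge group of `A` is spanned by the commutators of
`w σ i` and `w σ' j`, and such that the centre of `𝔤` is the space of the elements `x` of `E` with
`x̄ = -x`, where `x` acts by `½ ∑ σ, i, σ(x) w σ i w σ' i`.

The abelian variety `A` is *rigid* (`IsRigid`) if every subalgebra `𝔥` of `𝔤` such that `H_1(A, ℚ)` is
a semisimple module over `𝔥`, and all endomorphisms of this module commute with `𝔤`, contains the derived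
algebra `[𝔤, 𝔤]`.

**Theorem.** Let `A` be an abelian variety over `ℚ̄` such that

(1) `A` is of unitary type `(E, q)`, where `E` is admissible and `q = 1` or `q` is even (`IsUnitary`), or
(2) `A` is rigid, and has direct factors `A_1, …, A_k` (up to isogeny) of unitary types `(E_i, q_i)`,
    with any `q_i ≥ 1` and admissible and independent fields `E_i`, such that the centre of `𝔤` acts
    faithfully on these factors (`CentreFaithful`).

Here a CM field `E` is *admissible* if
(a) `E / ℚ` is an abelian extension, or (b) `[E : ℚ] = 2 p` with a prime number `p`, or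
(c) the conjugate embeddings of `E` are permuted transitively, up to complex conjugation, by a
commutative group of automorphisms, or (d) every nonzero Galois stable space of odd rational functions
on the set of the embeddings contains a nonzero function with values in `{0, 1, -1}` (this is implied
by each of the conditions (a), (b), (c)). The fields `E_i` are *independent* (`Independent`) if every
Galois stable space of families of odd functions on the sets of the embeddings of the `E_i` is the sum
of its components, that is, if the representations of the Galois group on the odd functions for the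
different `E_i` have no constituents in common; for `k = 1` this is no condition.

Let `M` be *any* motive in the tensor category generated by `h^1(A)` and the Tate motives. Then every
algebraic group `G` over `ℚ` with a torsor over `ℚ̄` which contains the periods of `M` contains the
Mumford-Tate group `MT(M)` (with its centre, and with the weights). So `MT(M)` is the smallest of these
groups.

Nothing is assumed about periods: `AbVar` is the description of an abelian variety over `ℚ̄` by theta
functions (see `Pool/Agent/Y102/AVDefs.lean`, where it is explained why every abelian variety has it),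
and the transcendence theorems which are used, the theorem of Schneider and Lang and the
transcendence of `π`, are proved in this repository. The group `G` is not assumed to be reductive.

## Which motives are these? (Explanations, not part of the statement)

* **K3 surfaces.** Let `X` be a K3 surface over `ℚ̄` (or a hyperkähler variety, or a cubic fourfold),
  let `T` be its transcendental lattice, and assume that the field `E` of the endomorphisms of the
  Hodge structure `T` is an admissible CM field and that the dimension `q` of `T` over `E` is one (these
  are the K3 surfaces with complex multiplication) or even. By the theorem of Zarhin the Hodge group of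
  `T` is the unitary group of `T` over `E`. The space `T ⊗ ℂ` is the sum of the totally isotropic
  eigenspaces `W_σ`, where `W_σ` and `W_σ'` are in duality. The first homology of the Kuga-Satake variety
  `A` of `T` is the even Clifford algebra `C⁺(T)`, and the Lie algebra of its Hodge group is the Lie
  algebra of the Hodge group of `T` acting by left multiplication. Let the `w_{σ, i}` be bases of the
  `W_σ`, dual to each other for `σ` and `σ'`, and let `e` be a vector of `T ⊗ ℂ` with `e ^ 2 = 1`. The
  operators `w σ i : y ↦ w_{σ, i} y e` on `C⁺(T ⊗ ℂ)` have the properties required in `TypeUnitary`. By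
  the theorems of Deligne and André `h^2(X)` is a motive in the tensor category of `h^1(A)` and the
  Tate motives. So the theorem applies to all motives in the tensor category of `h(X)`, for instance to
  `h(X ^ m)`, and to `T` itself, where `MT(T)` is the group of the unitary similitudes.
* **Abelian varieties with complex multiplication.** Let `L` be a CM field which is an abelian
  extension of `ℚ`, and let `A` be the product of the abelian varieties `A_Φ` with complex
  multiplication by `L` for all the CM types `Φ` of `L`. The Lie algebra of the Hodge group of `A` is the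
  space of the `x` in `L` with `x̄ = -x`; it acts on `H_1(A, ℂ)` with the eigenvalues `∑ σ ∈ Ψ, σ(x)`
  `/ 2` up to sign, one for each CM type `Ψ` of `L`, and all of them have the same multiplicity. So
  `H_1(A, ℂ)` is a multiple of the exterior algebra, and `A` is of type `(L, 1)`. All abelian varieties
  with complex multiplication whose CM fields are contained in `L` are direct factors of powers of `A`.
  So the theorem applies to *all* motives in the tensor category of the `h^1(B)` for the abelian
  varieties `B` over `ℚ̄` with complex multiplication by fields which are abelian extensions of `ℚ`, and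
  of the Tate motives. By the theorem of Shioda and Katsura it contains the motives of all Fermat
  hypersurfaces and of their products: the smallest group over `ℚ` with a period torsor is the
  Mumford-Tate group, for the motives (and all their direct factors and tensor constructions) of the
  Fermat hypersurfaces of every degree and dimension, whose periods are the monomials in the values of
  the gamma function at rational numbers.
* **Several CM fields.** An abelian variety with complex multiplication and the CM type `Φ` is a
  direct factor of an abelian variety of type `(E, 1)`, if the CM field `E` contains the reflex field of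
  `Φ`. For example, let `Φ_i` be CM types of non-Galois quartic CM fields, with pairwise different
  Galois closures. The reflex fields are quartic and satisfy (b), and the odd functions on their
  embeddings are faithful irreducible representations of dimension two of the dihedral groups of order
  eight; so these fields are independent of each other, and of every abelian CM field. So the
  products of (powers of) the corresponding abelian surfaces, of abelian varieties with complex
  multiplication by abelian fields, and of rigid abelian varieties without centre are factors of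
  abelian varieties `A` with (2).
* **Products with rigid abelian varieties.** Let `A = A₁ × C`, where `A₁` has complex multiplication
  and is contained in a sum of factors of unitary type with independent admissible fields, and `C`
  is rigid and the centre of its Lie algebra is zero. Then `A` satisfies (2): see
  `hasType_of_product`, proved below. This is the case if `H_1(C, ℂ)` is a sum of planes `V_i` and
  `𝔤_C ⊗ ℂ` is the sum of the `sl(V_i)` for the different planes: a subalgebra which acts irreducibly
  on `V_i` has the image `sl(V_i)`, and a proper subalgebra with all these images makes two different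
  planes isomorphic. So `C` can be a product of elliptic curves without complex multiplication, of
  abelian varieties with real multiplication by a totally real field of degree equal to the dimension,
  and of abelian varieties with multiplication by a totally indefinite quaternion algebra over a totally
  real field of half this degree. Hence the theorem applies to *all* motives in the tensor category
  generated by the motives of the Fermat hypersurfaces, of the abelian varieties with complex
  multiplication by abelian fields, of the elliptic curves, and of the factors of the Jacobians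
  `J_1(N)` of the modular curves. The Kuga-Satake varieties of the K3 surfaces whose transcendental
  lattice has multiplication by a totally real field `F`, and has rank `r ≥ 6` over `F`, can also be
  factors of `C` (by a theorem on spin representations in the starting library,
  `determined_of_typeSpin` in `MP_5d33ca_ag/OneMotivesMumfordTate`).
* **Rigid abelian varieties with a centre.** Let `C` be rigid, and let the centres of the endomorphism
  algebras of its simple factors be totally real fields or CM fields which are abelian extensions of
  `ℚ`. Let `L` be a CM field which is an abelian extension of `ℚ` and contains all these CM fields, and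
  let `A₁` be the product of the abelian varieties with complex multiplication by `L` for all the CM
  types of `L`; it is of type `(L, 1)`. Then `A = A₁ × C` satisfies (2): it is rigid
  (`isRigid_of_product`, proved below), and the centre acts faithfully on `A₁`, because the Hodge
  structures `det_F H^1(C')` of the isotypic factors `C'` with the CM fields `F` have rank one over `F` and
  are contained in the tensor category of `H^1(A₁)`. For example `C` can be
  (i) a simple abelian variety such that the endomorphisms of `H_1(C, ℚ)` which commute with `End(C)` are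
  a quaternion algebra over the CM field `F`, with the signature `(1, 1)` at exactly one place of the
  totally real subfield. These are the abelian varieties of the Shimura curves over totally real fields
  (Shimura, Deligne, Carayol). The derived algebra of a subalgebra as in the definition of rigidity has
  the image `sl(2)` at each place, and belongs to a Galois stable partition of the set of the places; the
  noncompact place is a block of it, as `su(1, 1)` and `su(2)` are not isomorphic, and so all blocks are
  single places;
  (ii) a simple abelian variety such that `F` is an imaginary quadratic field and these endomorphisms are a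
  division algebra of prime degree over `F`, with any signature (see also `CentreOfPeriodTorsors`).
* **Products with K3 surfaces.** If `A₁` is a Kuga-Satake variety of unitary type `(E, q)` with even
  `q > 2`, and `C` is a product of elliptic curves as above (or more generally `𝔤_C ⊗ ℂ` has no simple
  factor `sl(q)`), then `A = A₁ × C` satisfies (2), by the lemma of Goursat.

Condition (c) holds for general CM fields of every degree `2 k`: it is enough that some automorphism
permutes the `k` pairs of conjugate embeddings cyclically. Condition (d) holds for example for the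
reflex fields of the CM types of (d1) the CM fields of degree `2 k` whose Galois group contains all the
`2 ^ k` changes of signs, and (d2) the fields `K F` with an imaginary quadratic field `K` and a totally
real field `F` of degree `k` with the symmetric group as Galois group. In (d1) the embeddings of the
reflex field are the vectors of signs, and a Galois stable space of odd functions is spanned by products
of signs. In (d2) the odd functions are functions on the `r`-element subsets of a set with `k` elements
(odd for the complement, if `k = 2 r`), and a stable space is a sum of different Specht modules, which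
contain the functions `S ↦ ∏ i, (1_{a_i ∈ S} - 1_{b_i ∈ S})`, with values `0`, `1`, `-1`, on the `S`
that contain exactly one element of each pair `{a_i, b_i}` (and zero elsewhere).

Related results: `MP_bf54cf_ag/ComplexMultiplication` (same author) is the statement that the
de Rham-Betti classes in the tensor powers of `H^1(A)` are Hodge classes. Here the group `G` is an
arbitrary algebraic group over `ℚ`, not assumed to be reductive or to be determined by its invariants,
and `M` is any motive; the Lie algebra of `G` on `M` is controlled directly. `SmallestSubtorsorCM` in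
the starting library is about torsors over fields `K` which are linearly disjoint from the CM fields,
for the motives `h^1`, and the theorems of Bost and Deligne on de Rham-Betti classes of degree two and
on Hodge classes are hypotheses there. `CentreOfPeriodTorsors` of the starting library contains the
case of an imaginary quadratic field and a central division algebra.

## Motives

As `h^1(A)` is dual to `h^1(A)(1)`, the motive `M` is a direct factor of a sum of motives
`h^1(A) ^ {⊗ r i} (w i)`. Its Betti realization is a space of families of multilinear forms with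
rational values, in `r i` variables in `H_1(A, ℚ)`, with a basis `B`. It is the image of a motivated
projector, and the realizations of motivated classes are Hodge classes and de Rham-Betti classes; so
it is stable under the Lie algebra `𝔤` of the endomorphisms of `H_1(A, ℚ)` which annihilate all
classes that are Hodge classes and de Rham-Betti classes (`InLie`), and under the weights. The de Rham
realization has a basis which consists of combinations of products of elements of `H^1_dR(A / ℚ̄)`
with algebraic coefficients. The matrix `P` of the periods expresses it in terms of the basis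
`(2 π i) ^ (w i) B` of the Betti realization (`IsMotive`).

## Proof

Let `L` be the Lie algebra of `G`, and let `𝔮` be the set of the `X` in `𝔤` whose action on `M` is in
`L` up to a multiple of the weight operator. By the theorem of Schneider and Lang `𝔮` acts semisimply on
`H_1(A, ℚ)`, with the same commutant as `𝔤` (`Pool.Agent.N208.AM.qM_full`).

1. In the case (1) the derived algebra of `𝔤` is contained in `𝔮` if `q` is even (`PT.der_even'`), and
   it is zero if `q = 1`; in the case (2) it is contained in `𝔮` because `A` is rigid. As it is perfect,
   it is contained in `L` (`PT.der_LQ`).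
2. Consider a generic element `X` of the centre of `𝔮`, given by `x_i` in `E_i` on the factor `A_i`
   (`k = 1` and `A_1 = A` in the case (1)). The families of odd rational functions `c_i` on the sets of
   the embeddings with `∑ i, ∑ σ, c_i(σ) σ(x_i) = 0` form a space `R` which is stable under the
   automorphisms of `ℂ`. As the fields are independent, it is the sum of the spaces `R_i` of the
   relations for the `x_i`. Let `c` be an element of `R_i` with values in `{0, 1, -1}`. The product of
   all the operators `w σ j` with `c(σ) = 1` commutes with the derived algebra, and with `x_i`, because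
   of the relation; so it commutes with the image of `𝔮` for the factor `A_i`, hence with the centre of
   its Lie algebra, by the property of the commutants, and this means that the relation holds for all
   elements of `E_i`. So `c = 0`, as the embeddings are linearly independent, and `R_i = 0` for
   admissible `E_i` (`CM.no_rel`).
3. As there are no relations, for every element `y` of the centre of `𝔤` there is an additive function
   `f : ℂ → ℂ` which maps the eigenvalues of `X` on `H_1(A, ℂ)` to those of `y`, with `f(1) = 0`
   (`PT.exists_f2`; it does so on the factors, and then everywhere, by `PT.faithful_step`: the components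
   of the operator with the eigenvalues `f(x)` are in the centre of `𝔤`). The centre of `𝔤` and the
   weights act on `M ⊗ ℂ` by matrices which are diagonal in a common basis (`PT.exists_dia`), and the
   eigenvalues on `M ⊗ ℂ` are sums of eigenvalues on `H_1(A, ℂ)`. By the theorem on replicas
   (`PT.stab_replica`: if a diagonalizable matrix is in the Lie algebra of `G`, then the same is true if
   an additive function is applied to its eigenvalues) the image of `y` in the endomorphisms of `M` is
   in `L`, without a multiple of the weights (`PT.cen_stab_R`).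
4. So the image of `𝔤` is contained in `L ⊗ ℂ`. A logarithmic derivative which does not annihilate `2 π i`
   shows that the same is true for the weights (`PT.wt_stab_R`), and the theorem follows, because the
   Deligne torus is given by exponentials of the complex structure and of the weights.
-/

open Module Matrix NumberField Pool.Agent.Y102 Pool.Agent.W516.DR Pool.Agent.H204R3.GP

noncomputable section

namespace Pool.Agent.Results.MP_57341d_ag.ComplexMultiplicationTorsors

/-! ### The fields -/

section field

variable (E : Type) [Field E]

/-- Every nonzero space `V` of odd rational functions on the set of the complex embeddings of `E` which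
is stable under all automorphisms of `ℂ` contains a nonzero function with values in `{0, 1, -1}`. -/
def SignRich : Prop :=
  ∀ V : Submodule ℚ ((E →+* ℂ) → ℚ), V ≠ ⊥ →
    (∀ c ∈ V, ∀ σ, c (ComplexEmbedding.conjugate σ) = -c σ) →
    (∀ (s : ℂ ≃+* ℂ), ∀ c ∈ V, (fun σ => c ((s : ℂ →+* ℂ).comp σ)) ∈ V) →
    ∃ c ∈ V, c ≠ 0 ∧ ∀ σ, c σ = 0 ∨ c σ = 1 ∨ c σ = -1

/-- There is a group of automorphisms of `ℂ` which acts on the complex embeddings of `E` through a
commutative group, and transitively up to complex conjugation. -/
def AbelianTransitive : Prop :=
  ∃ S : Subgroup (ℂ ≃+* ℂ),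
    (∀ s ∈ S, ∀ t ∈ S, ∀ σ : E →+* ℂ,
      (s : ℂ →+* ℂ).comp ((t : ℂ →+* ℂ).comp σ) = (t : ℂ →+* ℂ).comp ((s : ℂ →+* ℂ).comp σ)) ∧
    ∀ σ τ : E →+* ℂ, ∃ s ∈ S,
      τ = (s : ℂ →+* ℂ).comp σ ∨ τ = ComplexEmbedding.conjugate ((s : ℂ →+* ℂ).comp σ)

/-- The field `E` is admissible: it is an abelian extension of `ℚ`, or its degree is twice a prime
number, or its conjugate embeddings are permuted transitively (up to complex conjugation) by a
commutative group of automorphisms, or it satisfies the condition `SignRich`. -/
def Admissible [NumberField E] : Prop :=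
  IsAbelianGalois ℚ E ∨ (∃ p : ℕ, p.Prime ∧ finrank ℚ E = 2 * p) ∨ AbelianTransitive E ∨ SignRich E

end field

variable {g : ℕ} (A : AbVar g)

/-- `φ` is a de Rham-Betti class in `H^1(A) ^ {⊗ r} (w)`, where `r` is the number of the variables: the
form `(2 π i) ^ w φ` is a combination of products of `r` classes of the de Rham cohomology
`H^1_dR(A / ℚ̄)`, with coefficients in `ℚ̄`. -/
def IsDRB {κ : Type} [Fintype κ] [DecidableEq κ] (w : ℤ)
    (φ : MultilinearMap ℚ (fun _ : κ => A.H1) ℚ) : Prop :=
  ∃ c : (κ → Fin g ⊕ Fin g) → QBar, ∀ v : κ → A.H1,
    (2 * Real.pi * Complex.I) ^ w * (φ v : ℂ) =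
      ∑ J, algebraMap QBar ℂ (c J) * ∏ l, A.dR (J l) (v l)

/-- `φ` is a Hodge class: it extends to a real multilinear form on the tangent space which is
invariant under the multiplication by the complex numbers of absolute value `1`. -/
def IsHodge {κ : Type} (φ : MultilinearMap ℚ (fun _ : κ => A.H1) ℚ) : Prop :=
  ∃ Ψ : MultilinearMap ℝ (fun _ : κ => Fin g → ℂ) ℝ,
    (∀ v : κ → A.H1, Ψ (fun l => A.per (v l)) = φ v) ∧
    ∀ z : ℂ, ‖z‖ = 1 → ∀ u : κ → Fin g → ℂ, Ψ (fun l => z • u l) = Ψ u

/-- The endomorphism `X` annihilates the form `φ` (as a derivation). -/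
def Annihilates {κ : Type} [Fintype κ] [DecidableEq κ] (X : Module.End ℚ A.H1)
    (φ : MultilinearMap ℚ (fun _ : κ => A.H1) ℚ) : Prop :=
  ∀ v, ∑ l, φ (Function.update v l (X (v l))) = 0

/-- `X` is in the Lie algebra `𝔤` of the Hodge group: it annihilates all classes in
`H^1(A) ^ {⊗ 2m} (m)` that are Hodge classes and de Rham-Betti classes (by a theorem of Deligne all
Hodge classes are de Rham-Betti classes). -/
def InLie (X : Module.End ℚ A.H1) : Prop :=
  ∀ (m : ℕ) (φ : MultilinearMap ℚ (fun _ : Fin m × Fin 2 => A.H1) ℚ),
    IsHodge A φ → IsDRB A m φ → Annihilates A X φ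

/-- `X` is in the centre of `𝔤`. -/
def InCentre (X : Module.End ℚ A.H1) : Prop := InLie A X ∧ ∀ Y, InLie A Y → Y * X = X * Y

/-- The algebra of the endomorphisms of `H_1(A, ℂ)`, as matrices for the basis of the lattice. -/
abbrev EndC (_ : AbVar g) : Type := Matrix (Fin (2 * g)) (Fin (2 * g)) ℂ

/-- The matrix of the extension of an endomorphism of `H_1(A, ℚ)` to `H_1(A, ℂ)`. -/
def toC (X : Module.End ℚ A.H1) : EndC A := Matrix.of fun i j => (X (Pi.single j 1) i : ℂ)

/-- The complex Lie algebra `𝔤 ⊗ ℂ`, acting on `H_1(A, ℂ)`. -/
def lieC : Submodule ℂ (EndC A) := Submodule.span ℂ {Y | ∃ X, InLie A X ∧ Y = toC A X}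

/-- The abelian variety is of unitary type for the CM field `E` and the rank `n`: the operators
`w σ i` satisfy the relations of a Clifford algebra, `𝔤 ⊗ ℂ` is spanned by the commutators of `w σ i`
and `w σ' j` (where `σ'` is the complex conjugate of `σ`), and the centre of `𝔤` consists of the
operators `½ ∑ σ, i, σ(x) w σ i w σ' i` for the elements `x` of `E` with `x̄ = -x`. -/
def TypeUnitary (E : Type) [Field E] [NumberField E] [IsCMField E] (n : ℕ) : Prop :=
  ∃ w : (E →+* ℂ) → Fin n → EndC A,
    (∀ σ i τ j, ¬(τ = ComplexEmbedding.conjugate σ ∧ i = j) → w σ i * w τ j = -(w τ j * w σ i)) ∧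
    (∀ σ i, w σ i * w (ComplexEmbedding.conjugate σ) i +
      w (ComplexEmbedding.conjugate σ) i * w σ i = 1) ∧
    lieC A = Submodule.span ℂ {Y | ∃ σ i j, Y = w σ i * w (ComplexEmbedding.conjugate σ) j -
      w (ComplexEmbedding.conjugate σ) j * w σ i} ∧
    (∀ X, InCentre A X → ∃ x : E, IsCMField.complexConj E x = -x ∧
      toC A X = (2⁻¹ : ℂ) • ∑ σ, ∑ i, σ x • (w σ i * w (ComplexEmbedding.conjugate σ) i)) ∧
    ∀ x : E, IsCMField.complexConj E x = -x → ∃ X, InCentre A X ∧
      toC A X = (2⁻¹ : ℂ) • ∑ σ, ∑ i, σ x • (w σ i * w (ComplexEmbedding.conjugate σ) i)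

/-! ### The centre comes from a factor -/

/-- `f` is a homomorphism (up to isogeny) from `A` to `B`: it is given by a linear map of the tangent
spaces, and the pull backs of the algebraic differential forms are algebraic. -/
def IsHomomorphism {g' : ℕ} (B : AbVar g') (f : A.H1 →ₗ[ℚ] B.H1) : Prop :=
  (∃ F : (Fin g → ℂ) →ₗ[ℂ] (Fin g' → ℂ), ∀ w, F (A.per w) = B.per (f w)) ∧
    ∃ e : Fin g' ⊕ Fin g' → Fin g ⊕ Fin g → QBar,
      ∀ i w, B.dR i (f w) = ∑ j, algebraMap QBar ℂ (e i j) * A.dR j w

/-- `𝔥` is a subalgebra of `𝔤`. -/
def IsSubalgebra (𝔥 : Submodule ℚ (Module.End ℚ A.H1)) : Prop :=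
  (∀ X ∈ 𝔥, InLie A X) ∧ ∀ X ∈ 𝔥, ∀ Y ∈ 𝔥, X * Y - Y * X ∈ 𝔥

/-- The space `H_1(A, ℚ)` is a semisimple module over `𝔥`. -/
def IsSemisimple (𝔥 : Submodule ℚ (Module.End ℚ A.H1)) : Prop :=
  ∀ U : Submodule ℚ A.H1, (∀ X ∈ 𝔥, ∀ u ∈ U, X u ∈ U) →
    ∃ U' : Submodule ℚ A.H1, (∀ X ∈ 𝔥, ∀ u ∈ U', X u ∈ U') ∧ IsCompl U U'

/-- All endomorphisms of `H_1(A, ℚ)` which commute with `𝔥` commute with `𝔤`. -/
def SameCommutant (𝔥 : Submodule ℚ (Module.End ℚ A.H1)) : Prop :=
  ∀ P : Module.End ℚ A.H1, (∀ X ∈ 𝔥, X * P = P * X) → ∀ X, InLie A X → X * P = P * X

/-- The abelian variety is *rigid*: every subalgebra `𝔥` of `𝔤` such that `H_1(A, ℚ)` is a semisimple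
module over `𝔥`, and all endomorphisms of this module commute with `𝔤`, contains the derived algebra
`[𝔤, 𝔤]`. -/
def IsRigid : Prop := ∀ 𝔥, IsSubalgebra A 𝔥 → IsSemisimple A 𝔥 → SameCommutant A 𝔥 →
  ∀ X Y, InLie A X → InLie A Y → X * Y - Y * X ∈ 𝔥

/-- A direct factor `B` of `A` (up to isogeny) of unitary type `(E, n)`, for an admissible CM field `E`
and `n ≥ 1`. -/
structure UnitaryFactor where
  /-- the field -/
  E : Type
  [field : Field E]
  [number : NumberField E]
  [cm : IsCMField E]
  /-- the dimension of the factor -/
  g' : ℕ
  /-- the factor -/
  B : AbVar g'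
  /-- the rank -/
  n : ℕ
  /-- the inclusion of the factor -/
  f : B.H1 →ₗ[ℚ] A.H1
  /-- the projection to the factor -/
  p : A.H1 →ₗ[ℚ] B.H1
  admissible : Admissible E
  pos : n ≠ 0
  type : TypeUnitary B E n
  inclusion : IsHomomorphism B A f
  projection : IsHomomorphism A B p
  split : ∀ v, p (f v) = v

attribute [instance] UnitaryFactor.field UnitaryFactor.number UnitaryFactor.cm

/-- The complex embeddings of the field `E` of the factor. -/
def UnitaryFactor.Emb {A : AbVar g} (F : UnitaryFactor A) : Type := F.E →+* ℂ

/-- The complex conjugate of an embedding. -/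
def UnitaryFactor.conj {A : AbVar g} (F : UnitaryFactor A) (σ : F.Emb) : F.Emb :=
  ComplexEmbedding.conjugate (K := F.E) σ

/-- The composition of an embedding with an automorphism of `ℂ`. -/
def UnitaryFactor.act {A : AbVar g} (F : UnitaryFactor A) (s : ℂ ≃+* ℂ) (σ : F.Emb) : F.Emb :=
  RingHom.comp (α := F.E) (s : ℂ →+* ℂ) σ

/-- The families of rational functions on the sets of the complex embeddings of the fields. -/
abbrev Family {k : ℕ} (F : Fin k → UnitaryFactor A) : Type := ∀ i, (F i).Emb → ℚ

/-- All functions in the space `V` of families are odd, and it is stable under all automorphisms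
of `ℂ`. -/
def IsStableOdd {k : ℕ} (F : Fin k → UnitaryFactor A) (V : Submodule ℚ (Family A F)) : Prop :=
  (∀ c ∈ V, ∀ i σ, c i ((F i).conj σ) = -c i σ) ∧
    ∀ s : ℂ ≃+* ℂ, ∀ c ∈ V, (fun i σ => c i ((F i).act s σ)) ∈ V

/-- The space `V` of families is the direct sum of its components. -/
def Splits {k : ℕ} (F : Fin k → UnitaryFactor A) (V : Submodule ℚ (Family A F)) : Prop :=
  ∀ c ∈ V, ∀ i, ∃ c' ∈ V, c' i = c i ∧ ∀ j, j ≠ i → c' j = 0

/-- The fields `E_i` of the factors are independent: every Galois stable space of families of odd
functions on the sets of the embeddings of the `E_i` is the direct sum of its components. (The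
representations of the Galois group on the odd functions for different `i` have no constituents in
common.) -/
def Independent {k : ℕ} (F : Fin k → UnitaryFactor A) : Prop :=
  ∀ V : Submodule ℚ (Family A F), IsStableOdd A F V → Splits A F V

/-- The centre of `𝔤` acts faithfully on the factors: an element of the centre which acts by zero on the
homology of all the factors is zero. -/
def CentreFaithful {k : ℕ} (F : Fin k → UnitaryFactor A) : Prop :=
  ∀ X, InCentre A X → (∀ i v, (F i).p (X ((F i).f v)) = 0) → X = 0

/-- The abelian variety `A` is of unitary type `(E, n)`, with `n = 1` or `n` even, for an admissible CM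
field `E`. -/
def IsUnitary : Prop := ∃ (E : Type) (_ : Field E) (_ : NumberField E) (_ : IsCMField E) (n : ℕ),
  Admissible E ∧ (n = 1 ∨ (Even n ∧ n ≠ 0)) ∧ TypeUnitary A E n

/-- The abelian variety `A` is of unitary type `(E, n)`, with `n = 1` or `n` even and `E` admissible; or
it is rigid, and the centre of `𝔤` acts faithfully on independent factors of unitary type. -/
def HasType : Prop :=
  IsUnitary A ∨
    (IsRigid A ∧ ∃ (k : ℕ) (F : Fin k → UnitaryFactor A), Independent A F ∧ CentreFaithful A F)

theorem inLie_iff {X : Module.End ℚ A.H1} : InLie A X ↔ X ∈ A.NA :=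
  forall_congr' fun _ => forall_congr' fun φ => forall_congr' fun _ =>
    (imp_congr_left (L0h12.CM.drb_iff (A := A) (φ := φ)))

theorem inCentre_iff {X : Module.End ℚ A.H1} : InCentre A X ↔ X ∈ A.CN :=
  ⟨fun h => ⟨(inLie_iff A).1 h.1, fun Y hY => h.2 Y ((inLie_iff A).2 hY)⟩,
    fun h => ⟨(inLie_iff A).2 h.1, fun Y hY => h.2 Y ((inLie_iff A).1 hY)⟩⟩

theorem exists_unit {E : Type} [Field E] [NumberField E] [IsCMField E] {n : ℕ}
    (hA : TypeUnitary A E n) : ∃ ω : (E →+* ℂ) → Fin n → Module.End ℂ (TensorProduct ℚ ℂ A.H1),
      L0h12.CM.IsUnit A ω := by
  obtain ⟨w, h1, h2, h3, h4, h5⟩ := hA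
  refine ⟨_, L0h12.PT.isUnit_of_matrix (w := w) ⟨h1, h2⟩ ?_
    (fun X hX => h4 X ((inCentre_iff A).2 hX)) fun x hx => ?_⟩
  · refine Eq.trans ?_ (h3 : lieC A = L0h12.CM.gls w)
    unfold lieC
    simp only [inLie_iff]
    rfl
  · obtain ⟨X, hX, hX'⟩ := h5 x hx
    exact ⟨X, (inCentre_iff A).1 hX, hX'⟩

theorem rigid_iff : IsRigid A ↔ L0h12.PT.DRigid A :=
  ⟨fun hA 𝔥 h X hX Y hY => hA 𝔥 ⟨fun Z hZ => (inLie_iff A).2 (h.le hZ), h.br⟩ h.semi
    (fun P hP Z hZ => h.comm P hP Z ((inLie_iff A).1 hZ)) X Y ((inLie_iff A).2 hX)
      ((inLie_iff A).2 hY),
    fun hA 𝔥 h1 h3 h4 X Y hX hY => hA 𝔥 ⟨fun Z hZ => (inLie_iff A).1 (h1.1 Z hZ), h1.2, h3,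
      fun P hP Z hZ => h4 P hP Z ((inLie_iff A).2 hZ)⟩ X ((inLie_iff A).1 hX) Y
        ((inLie_iff A).1 hY)⟩

theorem signRich_of {E : Type} [Field E] [NumberField E] [IsCMField E] (hE : Admissible E) :
    L0h12.CM.SignRich E := by
  rcases hE with h | ⟨p, hp, h⟩ | h | h
  · exact L0h12.CM.signRich_of_abelianTransitive L0h12.CM.abelianTransitive_of_abelian
  · exact L0h12.CM.signRich_of_abelianTransitive (L0h12.CM.abelianTransitive_of_prime hp h)
  · exact L0h12.CM.signRich_of_abelianTransitive h
  · exact h

theorem rch_of (hA : HasType A) : L0h12.PT.Rch A := by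
  rcases hA with ⟨E, i1, i2, i3, n, hE, hn, hU⟩ | ⟨hr, k, F, hF, hc⟩
  · obtain ⟨ω, hω⟩ := exists_unit A hU
    exact L0h12.PT.rch_U (signRich_of hE) hn hω
  · choose ω hω using fun i => exists_unit (F i).B (F i).type
    refine (L0h12.PT.crch_fam (ι := Fin k) (fun i => ⟨(F i).E, (F i).g', (F i).B, (F i).n, ω i,
      (F i).f, (F i).p, ⟨⟨(F i).inclusion.1, (F i).inclusion.2⟩,
        ⟨(F i).projection.1, (F i).projection.2⟩, (F i).split⟩, signRich_of (F i).admissible,
      (F i).pos, hω i⟩) (fun V h1 h2 => hF V ⟨h1, h2⟩)
      fun W hW h0 => hc W ((inCentre_iff A).2 hW) fun i v =>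
        LinearMap.congr_fun (h0 i) v).rch ((rigid_iff A).1 hr)

/-- The product `A = B × C` is rigid, if `B` has complex multiplication (that is, its Lie algebra is
commutative) and `C` is rigid. The centre of the Lie algebra of `C` can be arbitrary. -/
theorem isRigid_of_product {g₁ g₂ : ℕ} {B : AbVar g₁} {C : AbVar g₂}
    (hB : ∀ X Y, InLie B X → InLie B Y → X * Y = Y * X) (hC : IsRigid C)
    {i : B.H1 →ₗ[ℚ] A.H1} {p : A.H1 →ₗ[ℚ] B.H1}
    {j : C.H1 →ₗ[ℚ] A.H1} {q : A.H1 →ₗ[ℚ] C.H1} (hi : IsHomomorphism B A i)
    (hp : IsHomomorphism A B p) (hpi : ∀ v, p (i v) = v) (hj : IsHomomorphism C A j)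
    (hq : IsHomomorphism A C q) (hqj : ∀ v, q (j v) = v) (hs : ∀ v, i (p v) + j (q v) = v) :
    IsRigid A := by
  have h : R917.DT.Fac B A i p := ⟨⟨hi.1, hi.2⟩, ⟨hp.1, hp.2⟩, hpi⟩
  have h' : R917.DT.Fac C A j q := ⟨⟨hj.1, hj.2⟩, ⟨hq.1, hq.2⟩, hqj⟩
  exact (rigid_iff A).2 (L0h12.PT.dRigid_cm h h' hs
    (fun X hX Y hY => hB X Y ((inLie_iff B).2 hX) ((inLie_iff B).2 hY)) ((rigid_iff C).1 hC))

/-- The abelian variety `A = B × C` is included, if `B` has complex multiplication (that is, its Lie
algebra is commutative), `C` is rigid and the centre of its Lie algebra is zero (for example a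
product of elliptic curves without complex multiplication), and there are independent factors of
unitary type such that `B` is contained in their sum. -/
theorem hasType_of_product {g₁ g₂ : ℕ} {B : AbVar g₁} {C : AbVar g₂}
    (hB : ∀ X Y, InLie B X → InLie B Y → X * Y = Y * X) (hC : IsRigid C)
    (hC0 : ∀ X, InCentre C X → X = 0) {i : B.H1 →ₗ[ℚ] A.H1} {p : A.H1 →ₗ[ℚ] B.H1}
    {j : C.H1 →ₗ[ℚ] A.H1} {q : A.H1 →ₗ[ℚ] C.H1} (hi : IsHomomorphism B A i)
    (hp : IsHomomorphism A B p) (hpi : ∀ v, p (i v) = v) (hj : IsHomomorphism C A j)
    (hq : IsHomomorphism A C q) (hqj : ∀ v, q (j v) = v) (hs : ∀ v, i (p v) + j (q v) = v)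
    {k : ℕ} (F : Fin k → UnitaryFactor A) (hF : Independent A F)
    (hFB : ∀ v, (∀ l, (F l).p v = 0) → p v = 0) : HasType A := by
  have h : R917.DT.Fac B A i p := ⟨⟨hi.1, hi.2⟩, ⟨hp.1, hp.2⟩, hpi⟩
  have h' : R917.DT.Fac C A j q := ⟨⟨hj.1, hj.2⟩, ⟨hq.1, hq.2⟩, hqj⟩
  have hR : L0h12.PT.Rigid C := by
    refine ⟨fun X hX => hC0 X ((inCentre_iff C).2 hX), fun 𝔥 h𝔥 X hX => ?_⟩
    obtain ⟨Z, hZ, δ, hδ, hXe, hcomm⟩ := Pool.Agent.N208.AM.full_NA.dec hX
    have hZ0 : Z = 0 := hC0 Z ((inCentre_iff C).2 ⟨hZ, fun Y hY => (hcomm Y hY).symm⟩)
    rw [hXe, hZ0, zero_add]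
    have hder : Pool.Agent.Y102.der C.NA ≤ 𝔥 := by
      unfold Pool.Agent.Y102.der
      rw [Submodule.span_le]
      rintro _ ⟨X, hX, Y, hY, rfl⟩
      exact (rigid_iff C).1 hC 𝔥 h𝔥 X hX Y hY
    exact hder hδ
  exact Or.inr ⟨isRigid_of_product A hB hC hi hp hpi hj hq hqj hs, k, F, hF, fun X hX h0 =>
    L0h12.PT.faithful_of_from (fun l => (F l).f) (fun l => (F l).p)
      (fun l => ⟨⟨(F l).inclusion.1, (F l).inclusion.2⟩, ⟨(F l).projection.1, (F l).projection.2⟩,
        (F l).split⟩) (fun W hW v hv => L0h12.PT.cen_prod h h' hs hR W hW v (hFB v hv)) X
      ((inCentre_iff A).1 hX) h0⟩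

/-! ### Motives -/

variable {s n : ℕ} (r : Fin s → ℕ) (w : Fin s → ℤ)

/-- The Betti realization of the sum of the motives `h^1(A) ^ {⊗ r i} (w i)`: families of multilinear
forms in `r i` variables in the rational homology. -/
abbrev Tensors : Type := ∀ i : Fin s, MultilinearMap ℚ (fun _ : Fin (r i) => A.H1) ℚ

variable {A r}

/-- `M` is the matrix of the action of the endomorphism `X` of the rational homology of `A` (as a
derivation) on the space of tensors with the basis `B`. -/
def IsLieMatrix (B : Fin n → Tensors A r) (X : Module.End ℚ A.H1)
    (M : Matrix (Fin n) (Fin n) ℚ) : Prop :=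
  ∀ a i v, ∑ k, B a i (Function.update v k (X (v k))) = ∑ b, M b a * B b i v

/-- The subspace with the basis `B` is the Betti realization of a direct factor `M` of the sum of the
motives `h^1(A) ^ {⊗ r i} (w i)`, and `P` is the matrix of the periods of `M` for the basis `B` and for
some basis of the de Rham realization of `M` over `ℚ̄`. -/
structure IsMotive (B : Fin n → Tensors A r) (P : Matrix (Fin n) (Fin n) ℂ) : Prop where
  /-- `B` is a basis of a subspace -/
  basis : LinearIndependent ℚ B
  /-- the subspace is stable under `𝔤` -/
  lie : ∀ X, InLie A X → ∃ M : Matrix (Fin n) (Fin n) ℚ, IsLieMatrix B X M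
  /-- the subspace is stable under the weights -/
  weight : ∃ M : Matrix (Fin n) (Fin n) ℚ, ∀ a i v,
    ((r i : ℚ) - 2 * w i) * B a i v = ∑ b, M b a * B b i v
  /-- the de Rham realization has a basis of elements with algebraic coefficients in terms of the
  tensor products of the elements of the basis of `H^1_dR(A / ℚ̄)` -/
  deRham : ∃ c : Fin n → ∀ i : Fin s, (Fin (r i) → Fin g ⊕ Fin g) → ℂ,
    (∀ a i J, IsAlgebraic ℚ (c a i J)) ∧ ∀ a i (v : Fin (r i) → A.H1),
      ∑ J, c a i J * ∏ k, A.dR (J k) (v k) =
        (2 * Real.pi * Complex.I) ^ (w i) * ∑ b, P b a * (B b i v : ℂ)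
  /-- the matrix of the periods is invertible -/
  det : P.det ≠ 0

/-! ### Algebraic groups, torsors and the Mumford-Tate group -/

/-- A subgroup of `GL_R(ℂ)` defined by polynomials with rational coefficients. -/
def IsAlgebraicSubgroup {R : Type} [Fintype R] [DecidableEq R] (G : Subgroup (GL R ℂ)) : Prop :=
  ∃ I : Set (MvPolynomial (R × R) ℚ), ∀ x : GL R ℂ, x ∈ G ↔
    ∀ p ∈ I, MvPolynomial.aeval (fun b : R × R => (x : Matrix R R ℂ) b.1 b.2) p = 0

/-- The torsor `G · T⁻¹` of `G`: the matrices `F` such that `F T` is an element of `G`. It is
defined over `ℚ̄` if `T` is a matrix with algebraic entries. -/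
def torsor (G : Subgroup (GL (Fin n) ℂ)) (T : Matrix (Fin n) (Fin n) ℂ) :
    Set (Matrix (Fin n) (Fin n) ℂ) :=
  {F | ∃ x ∈ G, (x : Matrix (Fin n) (Fin n) ℂ) = F * T}

variable (A) in
/-- The Hodge structure of `H^1(A)`: the complex number `z` acts on `H_1(A, ℝ) = ℂ ^ g` by
multiplication, and on `H^1(A, ℝ)` by the transposed map, here in the basis of `H^1(A, ℚ)` which is
dual to the basis of the lattice. -/
def hodge (z : ℂ) : Matrix (Fin (2 * g)) (Fin (2 * g)) ℂ :=
  Matrix.of fun i j => ((A.lam.repr (z • A.lam i) j : ℝ) : ℂ)

/-- `R` is the matrix of the action of the complex number `z` on `M`, in the Hodge structure given by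
those of `H^1(A)` and of the Tate motives (`z` acts on `ℚ(1)` by `(z z̄)⁻¹`). -/
def IsHodgeMatrix (B : Fin n → Tensors A r) (z : ℂ) (R : Matrix (Fin n) (Fin n) ℂ) : Prop :=
  ∀ a i (j : Fin (r i) → Fin (2 * g)),
    ∑ j' : Fin (r i) → Fin (2 * g), (∏ k, hodge A z (j k) (j' k)) *
        (B a i (fun k => Pi.single (j' k) 1) : ℂ) =
      (z * (starRingEnd ℂ) z) ^ (w i) * ∑ b, R b a * (B b i (fun k => Pi.single (j k) 1) : ℂ)

/-- The Mumford-Tate group of `M`: the smallest algebraic group over `ℚ` which contains the image of
the Deligne torus. -/
def mumfordTate (B : Fin n → Tensors A r) : Subgroup (GL (Fin n) ℂ) :=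
  sInf {G | IsAlgebraicSubgroup G ∧ ∀ z : ℂ, z ≠ 0 → ∃ x ∈ G,
    IsHodgeMatrix w B z (x : Matrix (Fin n) (Fin n) ℂ)}

/-- **Theorem.** Let `A` be an abelian variety over `ℚ̄` of unitary type `(E, q)` with `q = 1` or `q`
even and admissible `E`, or a rigid abelian variety such that the centre of `𝔤` acts faithfully on
independent factors of unitary type. Let `M` be a motive in the tensor category generated by `h^1(A)` and the Tate
motives, with the matrix `Per` of periods, and let `G` be an algebraic group over `ℚ` with a torsor over
`ℚ̄` which contains `Per`. Then `G` contains the Mumford-Tate group of `M`. -/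
theorem result {g m n : ℕ} (A : AbVar g) (hA : HasType A)
    (r : Fin m → ℕ) (w : Fin m → ℤ) (B : Fin n → Tensors A r) (Per : Matrix (Fin n) (Fin n) ℂ)
    (hM : IsMotive w B Per) (G : Subgroup (GL (Fin n) ℂ)) (hG : IsAlgebraicSubgroup G)
    (T : Matrix (Fin n) (Fin n) ℂ) (hT : ∀ i j, IsAlgebraic ℚ (T i j)) (hP : Per ∈ torsor G T) :
    mumfordTate w B ≤ G := by
  have hR := rch_of A hA
  obtain ⟨hM', Wt, hW⟩ : N208.AM.Mot w B Per ∧ ∃ Wt, N208.AM.WRel w B Wt := by
    have hwt : ∃ M, N208.AM.WRel w B M := by
      obtain ⟨M, h⟩ := hM.weight
      refine ⟨M, fun a i => MultilinearMap.ext fun v => ?_⟩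
      rw [_root_.smul_apply, _root_.sum_apply, smul_eq_mul, h a i v]
      rfl
    refine ⟨⟨hM.basis, fun X hX => ?_, hwt, hM.det, hM.deRham⟩, hwt⟩
    obtain ⟨M, h⟩ := hM.lie X ((inLie_iff A).2 hX)
    refine ⟨M, fun a i => MultilinearMap.ext fun v => ?_⟩
    rw [N208.AM.dact_apply, _root_.sum_apply, h a i v]
    rfl
  have hb : ∀ j : Fin (2 * g), A.bas j = Pi.single j 1 := fun j => by
    unfold AbVar.bas
    rw [Pi.basisFun_apply]
  have hrel : ∀ z R, N208.AM.HRel w B z R → IsHodgeMatrix w B z R := by
    intro z R h a i j
    have h1 := h a i j
    simp only [hb] at h1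
    exact h1
  have hdet : T.det ≠ 0 := by
    obtain ⟨x, -, hxT⟩ := hP
    intro h0
    have h1 : (x : Matrix (Fin n) (Fin n) ℂ).det = 0 := by
      rw [hxT, Matrix.det_mul, h0, mul_zero]
    exact (Matrix.GeneralLinearGroup.det x).ne_zero h1
  obtain ⟨T', h1, h2⟩ := Pool.Agent.R917.alg_inv hT hdet
  obtain ⟨x, hx, hxT⟩ := hP
  have hH : N208.AM.PtM Per _ := ⟨Pool.Agent.R917.algGrp_of hG, T, T', h1, h2, x, hx, hxT⟩
  refine sInf_le ⟨hG, fun z hz => ?_⟩
  obtain ⟨y, ⟨y', hy', hyy⟩, h4⟩ := L0h12.PT.main_R hR hM' hW hH hz
  refine ⟨y', hy', ?_⟩
  rw [hyy]
  exact hrel _ _ h4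

end Pool.Agent.Results.MP_57341d_ag.ComplexMultiplicationTorsors

end
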