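import Pool.Agent.L0h12.PT.Rcc
import Pool.Agent.L0h12.CM.Prime
import Pool.Agent.R917.MT

set_option autoImplicit false

/-!
# The centre of the Mumford-Tate group and the period torsors of arbitrary abelian varieties

Let `A` be an abelian variety over `ℚ̄` and let `M` be any André motive over `ℚ̄` in the tensor
category generated by `h^1(A)` and the Tate motives. Let `P` be the matrix of the periods of `M`, and
let `G ⊆ GL(H_B(M))` be *any* algebraic group over `ℚ` such that the comparison isomorphism of `M` is a
point of a torsor of `G` defined over `ℚ̄`: `P T ∈ G(ℂ)` for some matrix `T` with algebraic entries. By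
theorems of Deligne and André the motivic Galois group of `M` is its Mumford-Tate group `MT(M)`. The
equality in Q1 implies that every such `G` contains `MT(M)` (if `G` does not contain `MT(M)`, then the
intersection of the two groups has smaller dimension, and the transcendence degree is at most this
dimension). Here we prove that `G` contains the *connected centre* of `MT(M)`, for every abelian variety
whose centre can be seen in abelian varieties of unitary type. There is no condition on the
semisimple part of the Hodge group of `A`: it is arbitrary.

Let `E` be a CM field, and `q ≥ 1`. An abelian variety `B` is of *unitary type* `(E, q)`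
(`TypeUnitary`) if there are operators `w σ i` on `H_1(B, ℂ)`, for the complex embeddings `σ` of `E`
and `1 ≤ i ≤ q`, with the relations of the Clifford algebra `w σ i * w σ' i + w σ' i * w σ i = 1`,
where `σ'` is the complex conjugate of `σ`, while all the other pairs anticommute, such that the
complexified Lie algebra `𝔤 ⊗ ℂ` of the Hodge group of `B` is spanned by the commutators of
`w σ i` and `w σ' j`, and such that the centre of `𝔤` is the space of the elements `x` of `E` with
`x̄ = -x`, where `x` acts by `½ ∑ σ, i, σ(x) w σ i w σ' i`.

**Theorem.** Let `A` be an abelian variety over `ℚ̄` with direct factors `B_1, …, B_k` (up to isogeny;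
they need not be different) of unitary types `(E_i, q_i)`, with admissible and independent CM fields
`E_i`, such that the centre of the Lie algebra `𝔤` of the Hodge group of `A` acts faithfully on the
sum of the `B_i` (`CentreFaithful`). Let `M` be *any* motive in the tensor category generated by `h^1(A)`
and the Tate motives. Then every algebraic group `G` over `ℚ` with a torsor over `ℚ̄` which contains the
periods of `M` contains the connected centre of the Mumford-Tate group `MT(M)` (`connectedCentre`).

Here a CM field `E` is *admissible* if
(a) `E / ℚ` is an abelian extension, or (b) `[E : ℚ] = 2 p` with a prime number `p`, or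
(c) the conjugate embeddings of `E` are permuted transitively, up to complex conjugation, by a
commutative group of automorphisms, or (d) every nonzero Galois stable space of odd rational functions
on the set of the embeddings contains a nonzero function with values in `{0, 1, -1}` (this is implied
by each of the conditions (a), (b), (c)). The fields `E_i` are *independent* (`Independent`) if every
Galois stable space of families of odd functions on the sets of the embeddings of the `E_i` is the sum
of its components, that is, if the representations of the Galois group on the odd functions for the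
different `E_i` have no constituents in common; for `k = 1` this is no condition.

Nothing is assumed about periods: `AbVar` is the description of an abelian variety over `ℚ̄` by theta
functions (see `Pool/Agent/Y102/AVDefs.lean`, where it is explained why every abelian variety has it),
and the transcendence theorems which are used, the theorem of Schneider and Lang and the
transcendence of `π`, are proved in this repository. The group `G` is not assumed to be reductive.

## Which abelian varieties are these? (Explanations, not part of the statement)

* **All abelian varieties whose CM fields are abelian.** Let `A'` be *any* abelian variety over `ℚ̄` such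
  that the centres of the endomorphism algebras of its simple factors are totally real fields (which can
  be arbitrary) or CM fields which are abelian extensions of `ℚ`. Let `L` be a CM field which is an
  abelian extension of `ℚ` and contains all these CM fields, and let `B` be the product of the abelian
  varieties `B_Φ` with complex multiplication by `L` for all the CM types `Φ` of `L`. The Lie algebra of
  the Hodge group of `B` is the space of the `x` in `L` with `x̄ = -x`; it acts on `H_1(B, ℂ)` with the
  eigenvalues `∑ σ ∈ Ψ, σ(x) / 2` up to sign, one for each CM type `Ψ` of `L`, and all of them have the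
  same multiplicity. So `H_1(B, ℂ)` is a multiple of the exterior algebra, and `B` is of type `(L, 1)`.
  Let `A = A' × B`. Then the centre of `𝔤` acts faithfully on `B`: let `(Z, 0)` be in the centre of `𝔤`.
  On the isotypic factor `A'_j` whose endomorphism algebra has the CM centre `F_j`, the element `Z` acts
  by some `z_j` in `F_j` with `z̄_j = -z_j`, and it is zero on the other factors. The determinant
  `det_{F_j} H^1(A'_j)` is a Hodge structure of rank one over `F_j`; hence it belongs to the tensor
  category generated by the Hodge structures with complex multiplication by `L`, that is, by `H^1(B)`. So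
  `Z` acts on it as zero, and `z_j = 0`. As `M` is a motive in the tensor category generated by `h^1(A)`,
  too, the theorem applies to all motives `M` in the tensor category generated by `h^1(A')`, the motives
  of the abelian varieties with complex multiplication by abelian fields, and the Tate motives.

  This is the analogue, for the groups which are defined by the de Rham-Betti comparison, of the theorem
  that the connected centre of the algebraic monodromy group of the `ℓ`-adic representation of an
  abelian variety is the connected centre of the Mumford-Tate group (Vasiu; Ullmo and Yafaev). For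
  example `A'` can be an abelian variety whose endomorphism algebra is an imaginary quadratic field, of
  any dimension and signature (and with any Hodge group), the Jacobian of a curve `y ^ N = f(x)` with
  any polynomial `f` over `ℚ̄`, if the endomorphism algebras of its new parts are cyclotomic fields, and
  any product of these.
* **Other CM fields.** Let the centre of the endomorphism algebra of a simple abelian variety `A'` be a CM
  field `F`, and let the Hodge structure `det_F H^1(A')` be given by the numbers `a_σ - a_σ'`. If these
  are zero for all `σ` besides one pair of conjugate embeddings, and `F` is admissible, then `A = A' × B`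
  satisfies the conditions, where `B` is the abelian variety of type `(F, 1)` which is associated with the
  Hodge structure of K3 type of rank one over `F` (the numbers for `A'` are a multiple of those for this
  Hodge structure). If `|a_σ - a_σ'|` does not depend on `σ` and is not zero, one can take the abelian
  variety `A_Φ` with the CM type given by the signs, provided that `A_Φ` is a direct factor of an abelian
  variety of type `(E, 1)`, where `E` is an admissible CM field which contains the reflex field.

## The connected centre

The Lie algebra of `MT(M)` is the sum of the image of `𝔤` and of the multiples of the weight operator;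
`𝔤` is reductive, and its image in the endomorphisms of `M` is isomorphic to a direct factor. So the Lie
algebra of the centre of `MT(M)` is the sum of the image of the centre of `𝔤` and of the multiples of
the weight operator. The connected centre is a torus, and so all its complex points are exponentials of
elements of the complexified Lie algebra; these are sums of commuting complex multiples of rational
elements. So the connected centre is the smallest algebraic group over `ℚ` which contains
`exp (t Z + u W)` for all `Z` in the image of the centre of `𝔤`, the weight operator `W` and all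
complex numbers `t` and `u`; this is the definition of `connectedCentre`.

## Relation to other results

`CentreOfPeriodTorsors` in the starting library proves (part 1) that `G` contains the weights, and (part
2) that it contains `MT(M)` for some abelian varieties for which the centre satisfies the condition
`RigidCentre` (it has no proper part which is large enough). `MP_57341d_ag/ComplexMultiplicationTorsors`
(same author) shows that `G` contains the whole group `MT(M)` if in addition `A` is rigid (`IsRigid`),
which is a condition on the derived algebra of `𝔤`. Here there is no such condition, and `A` is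
arbitrary outside of the factors `B_i`. The known theorems about de Rham-Betti classes (Bost, Bost and Charles,
Kreutz, Shen and Vial) give the commutants, and the whole group for some classes of abelian
varieties, such as products of elliptic curves.

## Motives

As `h^1(A)` is dual to `h^1(A)(1)`, the motive `M` is a direct factor of a sum of motives
`h^1(A) ^ {⊗ r i} (w i)`. Its Betti realization is a space of families of multilinear forms with
rational values, in `r i` variables in `H_1(A, ℚ)`, with a basis `B`. It is the image of a motivated
projector, and the realizations of motivated classes are Hodge classes and de Rham-Betti classes; so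
it is stable under the Lie algebra `𝔤` of the endomorphisms of `H_1(A, ℚ)` which annihilate all
classes that are Hodge classes and de Rham-Betti classes (`InLie`), and under the weights. The de Rham
realization has a basis which consists of combinations of products of elements of `H^1_dR(A / ℚ̄)`
with algebraic coefficients. The matrix `P` of the periods expresses it in terms of the basis
`(2 π i) ^ (w i) B` of the Betti realization (`IsMotive`).

## Proof

Let `L` be the Lie algebra of `G`, and let `𝔮` be the set of the `X` in `𝔤` whose action on `M` is in
`L` up to a multiple of the weight operator. By the theorem of Schneider and Lang `𝔮` acts semisimply on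
`H_1(A, ℚ)`, with the same commutant as `𝔤` (`Pool.Agent.N208.AM.qM_full`). So `𝔮` is the sum of
`[𝔮, 𝔮]` and of elements of the centre of `𝔤`.

1. Consider a generic element `X` of `𝔮` in the centre of `𝔤`, given by `x_i` in `E_i` on the factor
   `B_i`. The families of odd rational functions `c_i` on the sets of the embeddings with
   `∑ i, ∑ σ, c_i(σ) σ(x_i) = 0` form a space `R` which is stable under the automorphisms of `ℂ`. As the
   fields are independent, it is the sum of the spaces `R_i` of the relations for the `x_i`. Let `c` be an
   element of `R_i` with values in `{0, 1, -1}`. The product of all the operators `w σ j` with `c(σ) = 1`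
   commutes with the derived algebra, and with `x_i`, because of the relation; so it commutes with the
   image of `𝔮` for the factor `B_i`, hence with the centre of its Lie algebra, by the property of the
   commutants, and this means that the relation holds for all elements of `E_i`. So `c = 0`, as the
   embeddings are linearly independent, and `R_i = 0` for admissible `E_i` (`CM.no_rel`).
2. As there are no relations, for every element `Y` of the centre of `𝔤` there is an additive function
   `f : ℂ → ℂ` which maps the eigenvalues of `X` on the `H_1(B_i, ℂ)` to those of `Y`, with `f(1) = 0`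
   (`PT.exists_f2`). Then `f` maps the eigenvalues of `X` on the whole space `H_1(A, ℂ)` to those of `Y`
   (`PT.faithful_step`): let `T` be the operator with the eigenvalues of `f` on the eigenspaces of `X`. By
   the theorem on replicas it is in `𝔤 ⊗ ℂ`, and even in its centre, as a polynomial in `X`; the
   components of `T - Y` are rational elements of the centre of `𝔤` which act as zero on the factors `B_i`.
   So they are zero, because the centre acts faithfully on the factors.
3. The centre of `𝔤` and the weights act on `M ⊗ ℂ` by matrices which are diagonal in a common basis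
   (`PT.exists_dia`), and the eigenvalues on `M ⊗ ℂ` are sums of eigenvalues on `H_1(A, ℂ)`. By the
   theorem on replicas for `G` (`PT.stab_replica`) the image of `Y` in the endomorphisms of `M` is in `L`,
   without a multiple of the weights (`PT.cen_stab_C`).
4. A logarithmic derivative of the periods which does not annihilate `2 π i` is an element of `L`. It is
   the sum of the images of elements of the centre of `𝔤` and of `[𝔮, 𝔮]`, and of a nonzero multiple of
   the weight operator. So the weight operator is in `L` (`PT.wt_stab_C`).
-/

open Module Matrix NumberField Pool.Agent.Y102 Pool.Agent.W516.DR Pool.Agent.H204R3.GP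

noncomputable section

namespace Pool.Agent.Results.MP_57341d_ag.ConnectedCentre

/-! ### The fields -/

section field

variable (E : Type) [Field E]

/-- Every nonzero space `V` of odd rational functions on the set of the complex embeddings of `E` which
is stable under all automorphisms of `ℂ` contains a nonzero function with values in `{0, 1, -1}`. -/
def SignRich : Prop :=
  ∀ V : Submodule ℚ ((E →+* ℂ) → ℚ), V ≠ ⊥ →
    (∀ c ∈ V, ∀ σ, c (ComplexEmbedding.conjugate σ) = -c σ) →
    (∀ (s : ℂ ≃+* ℂ), ∀ c ∈ V, (fun σ => c ((s : ℂ →+* ℂ).comp σ)) ∈ V) →
    ∃ c ∈ V, c ≠ 0 ∧ ∀ σ, c σ = 0 ∨ c σ = 1 ∨ c σ = -1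

/-- There is a group of automorphisms of `ℂ` which acts on the complex embeddings of `E` through a
commutative group, and transitively up to complex conjugation. -/
def AbelianTransitive : Prop :=
  ∃ S : Subgroup (ℂ ≃+* ℂ),
    (∀ s ∈ S, ∀ t ∈ S, ∀ σ : E →+* ℂ,
      (s : ℂ →+* ℂ).comp ((t : ℂ →+* ℂ).comp σ) = (t : ℂ →+* ℂ).comp ((s : ℂ →+* ℂ).comp σ)) ∧
    ∀ σ τ : E →+* ℂ, ∃ s ∈ S,
      τ = (s : ℂ →+* ℂ).comp σ ∨ τ = ComplexEmbedding.conjugate ((s : ℂ →+* ℂ).comp σ)

/-- The field `E` is admissible: it is an abelian extension of `ℚ`, or its degree is twice a prime
number, or its conjugate embeddings are permuted transitively (up to complex conjugation) by a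
commutative group of automorphisms, or it satisfies the condition `SignRich`. -/
def Admissible [NumberField E] : Prop :=
  IsAbelianGalois ℚ E ∨ (∃ p : ℕ, p.Prime ∧ finrank ℚ E = 2 * p) ∨ AbelianTransitive E ∨ SignRich E

end field

variable {g : ℕ} (A : AbVar g)

/-- `φ` is a de Rham-Betti class in `H^1(A) ^ {⊗ r} (w)`, where `r` is the number of the variables: the
form `(2 π i) ^ w φ` is a combination of products of `r` classes of the de Rham cohomology
`H^1_dR(A / ℚ̄)`, with coefficients in `ℚ̄`. -/
def IsDRB {κ : Type} [Fintype κ] [DecidableEq κ] (w : ℤ)
    (φ : MultilinearMap ℚ (fun _ : κ => A.H1) ℚ) : Prop :=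
  ∃ c : (κ → Fin g ⊕ Fin g) → QBar, ∀ v : κ → A.H1,
    (2 * Real.pi * Complex.I) ^ w * (φ v : ℂ) =
      ∑ J, algebraMap QBar ℂ (c J) * ∏ l, A.dR (J l) (v l)

/-- `φ` is a Hodge class: it extends to a real multilinear form on the tangent space which is
invariant under the multiplication by the complex numbers of absolute value `1`. -/
def IsHodge {κ : Type} (φ : MultilinearMap ℚ (fun _ : κ => A.H1) ℚ) : Prop :=
  ∃ Ψ : MultilinearMap ℝ (fun _ : κ => Fin g → ℂ) ℝ,
    (∀ v : κ → A.H1, Ψ (fun l => A.per (v l)) = φ v) ∧
    ∀ z : ℂ, ‖z‖ = 1 → ∀ u : κ → Fin g → ℂ, Ψ (fun l => z • u l) = Ψ u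

/-- The endomorphism `X` annihilates the form `φ` (as a derivation). -/
def Annihilates {κ : Type} [Fintype κ] [DecidableEq κ] (X : Module.End ℚ A.H1)
    (φ : MultilinearMap ℚ (fun _ : κ => A.H1) ℚ) : Prop :=
  ∀ v, ∑ l, φ (Function.update v l (X (v l))) = 0

/-- `X` is in the Lie algebra `𝔤` of the Hodge group: it annihilates all classes in
`H^1(A) ^ {⊗ 2m} (m)` that are Hodge classes and de Rham-Betti classes (by a theorem of Deligne all
Hodge classes are de Rham-Betti classes). -/
def InLie (X : Module.End ℚ A.H1) : Prop :=
  ∀ (m : ℕ) (φ : MultilinearMap ℚ (fun _ : Fin m × Fin 2 => A.H1) ℚ),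
    IsHodge A φ → IsDRB A m φ → Annihilates A X φ

/-- `X` is in the centre of `𝔤`. -/
def InCentre (X : Module.End ℚ A.H1) : Prop := InLie A X ∧ ∀ Y, InLie A Y → Y * X = X * Y

/-- The algebra of the endomorphisms of `H_1(A, ℂ)`, as matrices for the basis of the lattice. -/
abbrev EndC (_ : AbVar g) : Type := Matrix (Fin (2 * g)) (Fin (2 * g)) ℂ

/-- The matrix of the extension of an endomorphism of `H_1(A, ℚ)` to `H_1(A, ℂ)`. -/
def toC (X : Module.End ℚ A.H1) : EndC A := Matrix.of fun i j => (X (Pi.single j 1) i : ℂ)

/-- The complex Lie algebra `𝔤 ⊗ ℂ`, acting on `H_1(A, ℂ)`. -/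
def lieC : Submodule ℂ (EndC A) := Submodule.span ℂ {Y | ∃ X, InLie A X ∧ Y = toC A X}

/-- The abelian variety is of unitary type for the CM field `E` and the rank `n`: the operators
`w σ i` satisfy the relations of a Clifford algebra, `𝔤 ⊗ ℂ` is spanned by the commutators of `w σ i`
and `w σ' j` (where `σ'` is the complex conjugate of `σ`), and the centre of `𝔤` consists of the
operators `½ ∑ σ, i, σ(x) w σ i w σ' i` for the elements `x` of `E` with `x̄ = -x`. -/
def TypeUnitary (E : Type) [Field E] [NumberField E] [IsCMField E] (n : ℕ) : Prop :=
  ∃ w : (E →+* ℂ) → Fin n → EndC A,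
    (∀ σ i τ j, ¬(τ = ComplexEmbedding.conjugate σ ∧ i = j) → w σ i * w τ j = -(w τ j * w σ i)) ∧
    (∀ σ i, w σ i * w (ComplexEmbedding.conjugate σ) i +
      w (ComplexEmbedding.conjugate σ) i * w σ i = 1) ∧
    lieC A = Submodule.span ℂ {Y | ∃ σ i j, Y = w σ i * w (ComplexEmbedding.conjugate σ) j -
      w (ComplexEmbedding.conjugate σ) j * w σ i} ∧
    (∀ X, InCentre A X → ∃ x : E, IsCMField.complexConj E x = -x ∧
      toC A X = (2⁻¹ : ℂ) • ∑ σ, ∑ i, σ x • (w σ i * w (ComplexEmbedding.conjugate σ) i)) ∧
    ∀ x : E, IsCMField.complexConj E x = -x → ∃ X, InCentre A X ∧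
      toC A X = (2⁻¹ : ℂ) • ∑ σ, ∑ i, σ x • (w σ i * w (ComplexEmbedding.conjugate σ) i)

/-! ### The centre comes from a factor -/

/-- `f` is a homomorphism (up to isogeny) from `A` to `B`: it is given by a linear map of the tangent
spaces, and the pull backs of the algebraic differential forms are algebraic. -/
def IsHomomorphism {g' : ℕ} (B : AbVar g') (f : A.H1 →ₗ[ℚ] B.H1) : Prop :=
  (∃ F : (Fin g → ℂ) →ₗ[ℂ] (Fin g' → ℂ), ∀ w, F (A.per w) = B.per (f w)) ∧
    ∃ e : Fin g' ⊕ Fin g' → Fin g ⊕ Fin g → QBar,
      ∀ i w, B.dR i (f w) = ∑ j, algebraMap QBar ℂ (e i j) * A.dR j w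

/-- A direct factor `B` of `A` (up to isogeny) of unitary type `(E, n)`, for an admissible CM field `E`
and `n ≥ 1`. -/
structure UnitaryFactor where
  /-- the field -/
  E : Type
  [field : Field E]
  [number : NumberField E]
  [cm : IsCMField E]
  /-- the dimension of the factor -/
  g' : ℕ
  /-- the factor -/
  B : AbVar g'
  /-- the rank -/
  n : ℕ
  /-- the inclusion of the factor -/
  f : B.H1 →ₗ[ℚ] A.H1
  /-- the projection to the factor -/
  p : A.H1 →ₗ[ℚ] B.H1
  admissible : Admissible E
  pos : n ≠ 0
  type : TypeUnitary B E n
  inclusion : IsHomomorphism B A f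
  projection : IsHomomorphism A B p
  split : ∀ v, p (f v) = v

attribute [instance] UnitaryFactor.field UnitaryFactor.number UnitaryFactor.cm

/-- The complex embeddings of the field `E` of the factor. -/
def UnitaryFactor.Emb {A : AbVar g} (F : UnitaryFactor A) : Type := F.E →+* ℂ

/-- The complex conjugate of an embedding. -/
def UnitaryFactor.conj {A : AbVar g} (F : UnitaryFactor A) (σ : F.Emb) : F.Emb :=
  ComplexEmbedding.conjugate (K := F.E) σ

/-- The composition of an embedding with an automorphism of `ℂ`. -/
def UnitaryFactor.act {A : AbVar g} (F : UnitaryFactor A) (s : ℂ ≃+* ℂ) (σ : F.Emb) : F.Emb :=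
  RingHom.comp (α := F.E) (s : ℂ →+* ℂ) σ

/-- The families of rational functions on the sets of the complex embeddings of the fields. -/
abbrev Family {k : ℕ} (F : Fin k → UnitaryFactor A) : Type := ∀ i, (F i).Emb → ℚ

/-- All functions in the space `V` of families are odd, and it is stable under all automorphisms
of `ℂ`. -/
def IsStableOdd {k : ℕ} (F : Fin k → UnitaryFactor A) (V : Submodule ℚ (Family A F)) : Prop :=
  (∀ c ∈ V, ∀ i σ, c i ((F i).conj σ) = -c i σ) ∧
    ∀ s : ℂ ≃+* ℂ, ∀ c ∈ V, (fun i σ => c i ((F i).act s σ)) ∈ V

/-- The space `V` of families is the direct sum of its components. -/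
def Splits {k : ℕ} (F : Fin k → UnitaryFactor A) (V : Submodule ℚ (Family A F)) : Prop :=
  ∀ c ∈ V, ∀ i, ∃ c' ∈ V, c' i = c i ∧ ∀ j, j ≠ i → c' j = 0

/-- The fields `E_i` of the factors are independent: every Galois stable space of families of odd
functions on the sets of the embeddings of the `E_i` is the direct sum of its components. (The
representations of the Galois group on the odd functions for different `i` have no constituents in
common.) -/
def Independent {k : ℕ} (F : Fin k → UnitaryFactor A) : Prop :=
  ∀ V : Submodule ℚ (Family A F), IsStableOdd A F V → Splits A F V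

/-- The centre of `𝔤` acts faithfully on the factors: an element which acts by zero on the homology of
all the factors is zero. -/
def CentreFaithful {k : ℕ} (F : Fin k → UnitaryFactor A) : Prop :=
  ∀ X, InCentre A X → (∀ i v, (F i).p (X ((F i).f v)) = 0) → X = 0

theorem inLie_iff {X : Module.End ℚ A.H1} : InLie A X ↔ X ∈ A.NA :=
  forall_congr' fun _ => forall_congr' fun φ => forall_congr' fun _ =>
    (imp_congr_left (L0h12.CM.drb_iff (A := A) (φ := φ)))

theorem inCentre_iff {X : Module.End ℚ A.H1} : InCentre A X ↔ X ∈ A.CN :=
  ⟨fun h => ⟨(inLie_iff A).1 h.1, fun Y hY => h.2 Y ((inLie_iff A).2 hY)⟩,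
    fun h => ⟨(inLie_iff A).2 h.1, fun Y hY => h.2 Y ((inLie_iff A).1 hY)⟩⟩

theorem exists_unit {E : Type} [Field E] [NumberField E] [IsCMField E] {n : ℕ}
    (hA : TypeUnitary A E n) : ∃ ω : (E →+* ℂ) → Fin n → Module.End ℂ (TensorProduct ℚ ℂ A.H1),
      L0h12.CM.IsUnit A ω := by
  obtain ⟨w, h1, h2, h3, h4, h5⟩ := hA
  refine ⟨_, L0h12.PT.isUnit_of_matrix (w := w) ⟨h1, h2⟩ ?_
    (fun X hX => h4 X ((inCentre_iff A).2 hX)) fun x hx => ?_⟩
  · refine Eq.trans ?_ (h3 : lieC A = L0h12.CM.gls w)
    unfold lieC
    simp only [inLie_iff]
    rfl
  · obtain ⟨X, hX, hX'⟩ := h5 x hx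
    exact ⟨X, (inCentre_iff A).1 hX, hX'⟩

theorem signRich_of {E : Type} [Field E] [NumberField E] [IsCMField E] (hE : Admissible E) :
    L0h12.CM.SignRich E := by
  rcases hE with h | ⟨p, hp, h⟩ | h | h
  · exact L0h12.CM.signRich_of_abelianTransitive L0h12.CM.abelianTransitive_of_abelian
  · exact L0h12.CM.signRich_of_abelianTransitive (L0h12.CM.abelianTransitive_of_prime hp h)
  · exact L0h12.CM.signRich_of_abelianTransitive h
  · exact h

theorem crch_of {k : ℕ} (F : Fin k → UnitaryFactor A) (hF : Independent A F)
    (hc : CentreFaithful A F) : L0h12.PT.CRch A := by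
  choose ω hω using fun i => exists_unit (F i).B (F i).type
  refine L0h12.PT.crch_fam (ι := Fin k) (fun i => ⟨(F i).E, (F i).g', (F i).B, (F i).n, ω i,
    (F i).f, (F i).p, ⟨⟨(F i).inclusion.1, (F i).inclusion.2⟩,
      ⟨(F i).projection.1, (F i).projection.2⟩, (F i).split⟩, signRich_of (F i).admissible,
    (F i).pos, hω i⟩) (fun V h1 h2 => hF V ⟨h1, h2⟩)
    fun W hW h0 => hc W ((inCentre_iff A).2 hW) fun i v => LinearMap.congr_fun (h0 i) v

/-! ### Motives -/

variable {s n : ℕ} (r : Fin s → ℕ) (w : Fin s → ℤ)

/-- The Betti realization of the sum of the motives `h^1(A) ^ {⊗ r i} (w i)`: families of multilinear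
forms in `r i` variables in the rational homology. -/
abbrev Tensors : Type := ∀ i : Fin s, MultilinearMap ℚ (fun _ : Fin (r i) => A.H1) ℚ

variable {A r}

/-- `M` is the matrix of the action of the endomorphism `X` of the rational homology of `A` (as a
derivation) on the space of tensors with the basis `B`. -/
def IsLieMatrix (B : Fin n → Tensors A r) (X : Module.End ℚ A.H1)
    (M : Matrix (Fin n) (Fin n) ℚ) : Prop :=
  ∀ a i v, ∑ k, B a i (Function.update v k (X (v k))) = ∑ b, M b a * B b i v

/-- `M` is the matrix of the weight operator: it acts on `h^1(A) ^ {⊗ r i} (w i)` as multiplication with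
the weight `r i - 2 w i`. -/
def IsWeightMatrix (B : Fin n → Tensors A r) (M : Matrix (Fin n) (Fin n) ℚ) : Prop :=
  ∀ a i v, ((r i : ℚ) - 2 * w i) * B a i v = ∑ b, M b a * B b i v

/-- The subspace with the basis `B` is the Betti realization of a direct factor `M` of the sum of the
motives `h^1(A) ^ {⊗ r i} (w i)`, and `P` is the matrix of the periods of `M` for the basis `B` and for
some basis of the de Rham realization of `M` over `ℚ̄`. -/
structure IsMotive (B : Fin n → Tensors A r) (P : Matrix (Fin n) (Fin n) ℂ) : Prop where
  /-- `B` is a basis of a subspace -/
  basis : LinearIndependent ℚ B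
  /-- the subspace is stable under `𝔤` -/
  lie : ∀ X, InLie A X → ∃ M : Matrix (Fin n) (Fin n) ℚ, IsLieMatrix B X M
  /-- the subspace is stable under the weights -/
  weight : ∃ M : Matrix (Fin n) (Fin n) ℚ, IsWeightMatrix w B M
  /-- the de Rham realization has a basis of elements with algebraic coefficients in terms of the
  tensor products of the elements of the basis of `H^1_dR(A / ℚ̄)` -/
  deRham : ∃ c : Fin n → ∀ i : Fin s, (Fin (r i) → Fin g ⊕ Fin g) → ℂ,
    (∀ a i J, IsAlgebraic ℚ (c a i J)) ∧ ∀ a i (v : Fin (r i) → A.H1),
      ∑ J, c a i J * ∏ k, A.dR (J k) (v k) =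
        (2 * Real.pi * Complex.I) ^ (w i) * ∑ b, P b a * (B b i v : ℂ)
  /-- the matrix of the periods is invertible -/
  det : P.det ≠ 0

/-! ### Algebraic groups, torsors and the connected centre of the Mumford-Tate group -/

/-- A subgroup of `GL_R(ℂ)` defined by polynomials with rational coefficients. -/
def IsAlgebraicSubgroup {R : Type} [Fintype R] [DecidableEq R] (G : Subgroup (GL R ℂ)) : Prop :=
  ∃ I : Set (MvPolynomial (R × R) ℚ), ∀ x : GL R ℂ, x ∈ G ↔
    ∀ p ∈ I, MvPolynomial.aeval (fun b : R × R => (x : Matrix R R ℂ) b.1 b.2) p = 0

/-- The torsor `G · T⁻¹` of `G`: the matrices `F` such that `F T` is an element of `G`. It is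
defined over `ℚ̄` if `T` is a matrix with algebraic entries. -/
def torsor (G : Subgroup (GL (Fin n) ℂ)) (T : Matrix (Fin n) (Fin n) ℂ) :
    Set (Matrix (Fin n) (Fin n) ℂ) :=
  {F | ∃ x ∈ G, (x : Matrix (Fin n) (Fin n) ℂ) = F * T}

/-- The connected centre of the Mumford-Tate group of `M`: the smallest algebraic group over `ℚ` which
contains the exponentials `exp (t X + u W)` for all complex numbers `t` and `u`, all elements `X` of the
centre of `𝔤`, acting on `M`, and the weight operator `W` of `M`. -/
def connectedCentre (B : Fin n → Tensors A r) : Subgroup (GL (Fin n) ℂ) :=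
  sInf {G | IsAlgebraicSubgroup G ∧ ∀ X, InCentre A X →
    ∀ M : Matrix (Fin n) (Fin n) ℚ, IsLieMatrix B X M →
    ∀ W : Matrix (Fin n) (Fin n) ℚ, IsWeightMatrix w B W → ∀ t u : ℂ, ∃ x ∈ G,
      (x : Matrix (Fin n) (Fin n) ℂ) =
        NormedSpace.exp (t • M.map (algebraMap ℚ ℂ) + u • W.map (algebraMap ℚ ℂ))}

/-- **Theorem.** Let `A` be an abelian variety over `ℚ̄`, with direct factors of unitary types
`(E_i, q_i)`, where the fields `E_i` are admissible and independent, such that the centre of the Lie
algebra `𝔤` acts faithfully on the factors. Let `M` be a motive in the tensor category generated by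
`h^1(A)` and the Tate motives, with the matrix `Per` of periods, and let `G` be an algebraic group over
`ℚ` with a torsor over `ℚ̄` which contains `Per`. Then `G` contains the connected centre of the
Mumford-Tate group of `M`. -/
theorem result {g m n : ℕ} (A : AbVar g) {k : ℕ} (F : Fin k → UnitaryFactor A)
    (hF : Independent A F) (hc : CentreFaithful A F)
    (r : Fin m → ℕ) (w : Fin m → ℤ) (B : Fin n → Tensors A r) (Per : Matrix (Fin n) (Fin n) ℂ)
    (hM : IsMotive w B Per) (G : Subgroup (GL (Fin n) ℂ)) (hG : IsAlgebraicSubgroup G)
    (T : Matrix (Fin n) (Fin n) ℂ) (hT : ∀ i j, IsAlgebraic ℚ (T i j)) (hP : Per ∈ torsor G T) :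
    connectedCentre w B ≤ G := by
  have hR := crch_of A F hF hc
  have hWR : ∀ W, IsWeightMatrix w B W → N208.AM.WRel w B W := by
    intro M h
    refine fun a i => MultilinearMap.ext fun v => ?_
    rw [_root_.smul_apply, _root_.sum_apply, smul_eq_mul, h a i v]
    rfl
  have hLR : ∀ X M, IsLieMatrix B X M → N208.AM.Rel B X M := by
    intro X M h
    refine fun a i => MultilinearMap.ext fun v => ?_
    rw [N208.AM.dact_apply, _root_.sum_apply, h a i v]
    rfl
  have hM' : N208.AM.Mot w B Per := by
    refine ⟨hM.basis, fun X hX => ?_, ?_, hM.det, hM.deRham⟩
    · obtain ⟨M, h⟩ := hM.lie X ((inLie_iff A).2 hX)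
      exact ⟨M, hLR X M h⟩
    · obtain ⟨M, h⟩ := hM.weight
      exact ⟨M, hWR M h⟩
  have hdet : T.det ≠ 0 := by
    obtain ⟨x, -, hxT⟩ := hP
    intro h0
    have h1 : (x : Matrix (Fin n) (Fin n) ℂ).det = 0 := by
      rw [hxT, Matrix.det_mul, h0, mul_zero]
    exact (Matrix.GeneralLinearGroup.det x).ne_zero h1
  obtain ⟨T', h1, h2⟩ := Pool.Agent.R917.alg_inv hT hdet
  obtain ⟨x, hx, hxT⟩ := hP
  have hH : N208.AM.PtM Per _ := ⟨Pool.Agent.R917.algGrp_of hG, T, T', h1, h2, x, hx, hxT⟩
  refine sInf_le ⟨hG, fun X hX M hXM W hW t u => ?_⟩
  obtain ⟨y', hy', hyy⟩ := L0h12.PT.main_C hR hM' (hWR W hW) hH ((inCentre_iff A).1 hX)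
    (hLR X M hXM) t u
  exact ⟨y', hy', hyy⟩

end Pool.Agent.Results.MP_57341d_ag.ConnectedCentre

end
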