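import Pool.Agent.L0h14.QU.Fin

set_option autoImplicit false

/-!
# The torsors of periods of the motives of orthogonal type, with arbitrarily many noncompact places

Let `A` be an abelian variety over `ℚ̄` and let `M` be any André motive over `ℚ̄` in the tensor
category generated by `h^1(A)` and the Tate motives. (By theorems of André this class of motives,
for all `A`, contains the motives of products of curves, abelian varieties, K3 surfaces,
hyperkähler varieties, cubic fourfolds and Fermat hypersurfaces.) Let `P` be the matrix of the periods
of `M`, and let `G ⊆ GL(H_B(M))` be *any* algebraic group over `ℚ` such that the comparison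
isomorphism of `M` is a point of a torsor of `G` defined over `ℚ̄`: `P T ∈ G(ℂ)` for some matrix `T`
with algebraic entries. By theorems of Deligne and André the motivic Galois group of `M` is the
Mumford-Tate group `MT(M)`. The equality in Q1 implies that every such `G` contains `MT(M)` (if `G`
does not contain `MT(M)`, then the intersection of the two groups has smaller dimension, and the
transcendence degree is at most this dimension); this is also equivalent to: all de Rham-Betti classes
in the tensor constructions of `M` are Hodge classes.

The theorem of this file says: **if `M` is a motive of abelian type such that all simple factors of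
the adjoint group of `MT(M)` are of type `A₁`, `B_n` (`n ≥ 3`) or `D_n^ℝ` (`n ≥ 3`), then every such
`G` contains the derived group of `MT(M)`, and even `MT(M)` if the centre of the Hodge group of `M`
is trivial.** The factors of the adjoint group over `ℚ` are restrictions of scalars from totally real
fields `F`, and there is no condition on the number of the real places of `F` at which the factor is
not compact, or on the number of factors. (The statement of the theorem is in terms of an auxiliary
abelian variety `A''`; the existence of `A''` for all these motives is the classification of Satake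
and Deligne, see below.)

Let `𝔤` be the Lie algebra of the endomorphisms of `H_1(A, ℚ)` which annihilate all classes that are
Hodge classes and de Rham-Betti classes; it is the Lie algebra of the Hodge group of `A`.

**Orthogonal parts** (`OrthogonalParts`). Let `W s` (`s = 1, …, k`) be direct summands of the
`𝔤`-module `H_1(A, ℂ)`, with inclusions `P s` and projections `Q s`, such that `𝔤` acts on `W s`
through the scalars and the Lie algebra `so (N s)`, spanned by the products of two different
generators `E s i` of a Clifford system, `N s = 3` or `N s ≥ 6`, and such that the associative algebra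
generated by `𝔤 ⊗ ℂ` contains elements which act on `W s` like these products and on the other
summands by zero. So `W s` is the spin representation of `so (N s)`, twisted by a character, with some
multiplicity, and different summands have no common constituents. The set `C` of the *compact*
summands consists of summands where the complex structure of `H_1(A, ℝ)` acts by the scalar `i`. On
the other summands, which are called noncompact, it acts by an element of `so (N s)` (which is then a
real form `so(2, N s - 2)`), and the kernel of the action of `[𝔤, 𝔤] ⊗ ℂ` is stable under the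
complex conjugation. The sum of all `W s` is the eigenspace for `i √D` of a rational endomorphism
`R` with `R³ = - D R`, `D > 0`. (`R` commutes with `𝔤`, so it is an endomorphism of `A`.)

**The twists** (`Twists`). On each summand `W s` the centre of `𝔤` acts by scalars. Let `𝔤₀ ⊆ 𝔤` be the
smallest rational subspace which contains `[𝔤, 𝔤]` and whose real span contains the complex
structure. We assume: if `W s` and `W t` are two summands with `N s = N t`, `s ≠ t`, on which all
elements of `𝔤₀` have the same scalars, then all elements of `𝔤` have the same scalars on `W s`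
and `W t`. For instance this is satisfied if

* the centre of `𝔤` acts trivially on the summands: this is so if all places are noncompact; or
* the elements of `𝔤₀` separate the summands: in the situation below this is so, for one
  factor, with the totally real field `F`, if the set of the compact places of `F` is not empty
  and not the inverse image of a set of places of a proper subfield of `F`; for example if the degree
  of `F` is a prime number, or if there is exactly one compact or exactly one noncompact place.

It is also satisfied if `𝔤₀ = 𝔤`. By the theorem of Deligne on absolute Hodge classes `𝔤` is the Lie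
algebra of the Hodge group of `A`, which is the smallest rational Lie algebra whose real span
contains the complex structure; so `𝔤₀ = 𝔤` for all abelian varieties `A`, and `Twists` is never
a restriction. (Deligne's theorem is not used or assumed here.)

**The domain of `M`** (`DomainOf`). We assume that the elements of `[𝔤, 𝔤] ⊗ ℂ` which act trivially on
all noncompact summands act on `M` by matrices which commute with the complex structure `N` of `M`
(the generator of the Lie algebra of the circle in the Hodge structure of `M`): in other words, the
part of the Hodge group of `A` which acts trivially on the noncompact summands acts trivially on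
the Mumford-Tate domain of `M`. Nothing else is assumed about `M`.

**Theorem.** 1. `G` contains the derived group of `MT(M)`: for all elements `Z` of the derived algebra
of the Lie algebra of the Hodge group of `M`, and all complex numbers `t`, the matrix `exp (t Z)` is in
`G`. 2. If the centre of the Lie algebra of the Hodge group acts trivially on `M`, then `G` contains
`MT(M)`.

## Which motives are these? (Explanations, not part of the statement)

Let `M` be a motive of abelian type, in the tensor category of `h^1(A')`, such that the adjoint group
of `MT(M)` is a product of restrictions of scalars of groups of type `A₁`, `B_n` (`n ≥ 3`),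
`D_n` (`n ≥ 3`) over totally real fields `F`, and such that for type `D_n` the real forms
are `so(2, 2 n - 2)` or compact (type `D^ℝ`). Choose an imaginary quadratic field
`E₀ = ℚ(√-D)`. Deligne (*Variétés de Shimura*, 2.3.10) constructs abelian varieties `A''` with
multiplication by `F E₀`: `H_1(A'')` is `V ⊗_F F E₀` for a spin representation `V` over `F`; the
complex structure acts at the noncompact places through `V` alone, and at the compact
places through `E₀`, by the scalar `i` on the eigenspace of `i √D`. Let `A` be the product of `A'`
and of these abelian varieties `A''`, for all factors. Since `A''` corresponds to the same point of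
the Shimura variety of the adjoint group as `M`, it is defined over `ℚ̄`, and the Hodge group of `A`
has the same adjoint factors as that of `A'`. The summands `W s` are the spin representations of
the real places of the fields `F`, twisted, in the eigenspace of `i √D` of `R = √-D`. They
contain all the factors of `MT(M)^ad` which are not compact, so `DomainOf` is satisfied. Examples:

* all motives of abelian type on the quaternionic Shimura varieties (for example on Hilbert modular
  varieties) of arbitrary dimension: the quaternion algebra over `F` can be split at an arbitrary set of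
  real places. For instance the abelian varieties with quaternionic multiplication over `F`, the
  abelian varieties of the type of Mumford and their generalizations (tensor products over
  several noncompact and compact places), and all their products;
* motives with the Mumford-Tate group of an orthogonal group over `F`, of rank `≥ 6`, with signature
  `(2, r - 2)` at several real places of `F`, and definite at the others; the domain is a product of
  domains of type IV; products of motives of K3 type with such motives, with
  different fields and ranks; and the abelian varieties given by spin representations;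
* the Hodge generic abelian varieties with multiplication by a CM field, of signature `(2, 2)` at
  several places and definite at the others (type `A₃ = D₃^ℝ`).

Known before: *one* noncompact place (`SpinDomainMotives`, `KugaSatake` and `BallMotives` in the
starting library); for several noncompact places it was known (`NoncompactPeriodGroups`) that the image
of the Lie algebra of `G` in each noncompact factor is not compact. The new difficulty is that the Lie
algebra of `G` could identify the factors at different places of `F` (descend to a subfield of `F`):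
the theorem of Bost on endomorphisms excludes this directly only if the representation is defined
over `ℚ` without a twist, which is impossible if there are compact places. The twist introduces a
torus, and the Lie algebra of `G` could be a *twisted* form over a subfield. This is excluded here with
a twist by an imaginary quadratic field and the theorem that compact and noncompact places cannot be
identified.

Nothing is assumed about periods: `AbVar` is the description of an abelian variety over `ℚ̄` by theta
functions (see `Pool/Agent/Y102/AVDefs.lean`, where it is explained why every abelian variety has it),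
and the transcendence theorems which are used, the theorem of Schneider and Lang and the
transcendence of `π`, are proved in this repository.

## Motives

As `h^1(A)` is dual to `h^1(A)(1)`, the motive `M` is a direct factor of a sum of motives
`h^1(A) ^ {⊗ r i} (w i)`. Its Betti realization is a space of families of multilinear forms with
rational values, in `r i` variables in `H_1(A, ℚ)`, with a basis `B`. It is the image of a motivated
projector, and the realizations of motivated classes are Hodge classes and de Rham-Betti classes; so
it is stable under `𝔤` (`InLie`), and under the weights. The de Rham realization has a basis which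
consists of combinations of products of elements of `H^1_dR(A / ℚ̄)` with algebraic coefficients. The
matrix `P` of the periods expresses it in terms of the basis `(2 π i) ^ (w i) B` of the Betti
realization (`IsMotive`).

## Proof

Let `L` be the Lie algebra of `G`, and let `𝔮` be the set of the `X` in `𝔤` whose action on `M` is in
`L` up to a multiple of the weight operator. By the theorem of Schneider and Lang `𝔮` acts semisimply on
`H_1(A, ℚ)`, with the same commutant as `𝔤` (`Pool.Agent.N208.AM.qM_full`).

1. The Lie algebras `so (N s)` in the spin representation are rigid (`QU.so1_rigid`): a Lie subalgebra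
   which generates the same associative algebra is everything. So `[𝔮, 𝔮] ⊗ ℂ` and `[𝔤, 𝔤] ⊗ ℂ` have
   the same image in the endomorphisms of `W s`, for each `s`; over `ℝ` if `s` is noncompact.
2. (`QU.Sys.kill1`, `QU.Sys.kill2`.) Let `T` be an endomorphism of `H_1(A, ℂ)` which commutes with
   `[𝔮, 𝔮]`. Then `T` has no component from a compact summand `W s` to a noncompact summand `W t`, or
   back. For `x` in `𝔤 ⊗ ℝ` let `x' = [J, [J, x]]`, and let `y` be an element of `[𝔮, 𝔮] ⊗ ℝ` which acts
   on `W t` like `x'`. On `W s` the elements `y` and `k = y + [J, [J, y]] / 4` act in the same way, so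
   `x' Z = Z k` for the component `Z` of `T`. For the positive definite Riemann form `x'` is symmetric
   and `k` is antisymmetric. So `x' Z = 0`, and `Z = 0`.
3. Let `Jc` be the central component of the complex structure `J`. It acts on the compact summands by `i`
   and on the noncompact summands by zero. By 2. it commutes with all rational `T` which commute with
   `[𝔮, 𝔮]` and `R`, and which are supported on the image of `R` (`QU.Sys.B1`; here the complex
   conjugation is used, and the eigenspaces for `i √D` and `-i √D`). Therefore the elements of `𝔤₀`
   are sums of elements of `[𝔤, 𝔤]` and of central elements which commute with these `T`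
   (`QU.Sys.in_L1`).
4. Let `T : W s → W t`, `s ≠ t`, be a nonzero linear map which commutes with `[𝔮, 𝔮]`. Its rational
   components are endomorphisms as in 3. So the elements of `𝔤₀` have the same scalars on `W s` and
   `W t`. By `Twists` this is true for `𝔤`, and `T` commutes with the centre of `𝔮`, and with
   `𝔮`, hence with `𝔤` (`QU.Sys.Cm_NA`). But `W s` and `W t` have no common constituents.
5. If the images of `[𝔮, 𝔮] ⊗ ℂ` in `so (N s)` and `so (N t)` are not independent, then
   there is an isomorphism of the two Lie algebras, `N s = N t`, and an isomorphism of the spin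
   representations (`QU.exists_T_all`), and `T` as in 4. So two different summands are independent, and by
   the lemma of Ribet all summands are independent (`QU.Sys.joint`).
6. So `[𝔮, 𝔮] ⊗ ℂ` and `[𝔤, 𝔤] ⊗ ℂ` have the same image on the sum of the noncompact summands, and the
   theorem follows from a lemma on real Lie algebras (`Pool.Agent.N113.BT.mem_of_sup`) as
   in `SpinDomainMotives`.
-/

open Module Matrix Pool.Agent.Y102 Pool.Agent.W516.DR Pool.Agent.H204R3.GP

noncomputable section

namespace Pool.Agent.Results.MP_57341d_ag.OrthogonalTypeAllPlaces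

variable {g : ℕ} (A : AbVar g)

/-! ### The Lie algebra -/

/-- The multilinear forms in `2m` variables in the rational homology. -/
abbrev Form (m : ℕ) : Type := MultilinearMap ℚ (fun _ : Fin m × Fin 2 => A.H1) ℚ

/-- `φ` is a de Rham-Betti class in `H^1(A) ^ {⊗ 2m} (m)`. -/
def IsDRB {m : ℕ} (φ : Form A m) : Prop :=
  IsDeRhamBettiForm QBar A.dR (2 * Real.pi * Complex.I) m φ

/-- `φ` is a Hodge class in `H^1(A) ^ {⊗ 2m} (m)`. -/
def IsHodge {m : ℕ} (φ : Form A m) : Prop := IsHodgeTensor (A.per : A.H1 →+ (Fin g → ℂ)) φ

/-- The endomorphism `X` annihilates the form `φ` (as a derivation). -/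
def Annihilates {m : ℕ} (X : Module.End ℚ A.H1) (φ : Form A m) : Prop :=
  ∀ v, ∑ k, φ (Function.update v k (X (v k))) = 0

/-- `X` is in the Lie algebra `𝔤`: it annihilates all classes that are Hodge classes and
de Rham-Betti classes. -/
def InLie (X : Module.End ℚ A.H1) : Prop :=
  ∀ (m : ℕ) (φ : Form A m), IsHodge A φ → IsDRB A φ → Annihilates A X φ

/-- The algebra of the endomorphisms of `H_1(A, ℂ)`, as matrices for the basis of the lattice. -/
abbrev EndC (_ : AbVar g) : Type := Matrix (Fin (2 * g)) (Fin (2 * g)) ℂ

/-- The matrix of the extension of an endomorphism of `H_1(A, ℚ)` to `H_1(A, ℂ)`. -/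
def toC (X : Module.End ℚ A.H1) : EndC A := Matrix.of fun i j => (X (Pi.single j 1) i : ℂ)

/-- The complex Lie algebra `𝔤 ⊗ ℂ`, acting on `H_1(A, ℂ)`. -/
def lieC : Submodule ℂ (EndC A) := Submodule.span ℂ {Y | ∃ X, InLie A X ∧ Y = toC A X}

/-- The derived algebra `[𝔤, 𝔤]`. -/
def derivedLie : Submodule ℚ (Module.End ℚ A.H1) :=
  Submodule.span ℚ {Z | ∃ X, InLie A X ∧ ∃ Y, InLie A Y ∧ Z = X * Y - Y * X}

/-- The derived algebra of `𝔤 ⊗ ℂ`, acting on `H_1(A, ℂ)`. -/
def derivedC : Submodule ℂ (EndC A) := Submodule.span ℂ {Y | ∃ X ∈ derivedLie A, Y = toC A X}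

/-- The complex structure: the matrix of the multiplication with `i` on `H_1(A, ℝ) = ℂ ^ g`, for the
basis of the lattice. -/
def complexStructure : Matrix (Fin (2 * g)) (Fin (2 * g)) ℝ :=
  Matrix.of fun i j => A.lam.repr (Complex.I • A.lam j) i

/-! ### Orthogonal parts -/

/-- The Lie algebra spanned by the products of two different generators. -/
def orth {N d : ℕ} (E : Fin N → Matrix (Fin d) (Fin d) ℂ) :
    Submodule ℂ (Matrix (Fin d) (Fin d) ℂ) :=
  Submodule.span ℂ {Y | ∃ i j, i ≠ j ∧ Y = E i * E j}

/-- **The orthogonal parts** `W s` of `H_1(A, ℂ)`, `s : Fin k`: `P s` is the inclusion of `W s`, a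
space of dimension `d s`, and `Q s` is a projection to `W s`. The `E s i` are `N s` anticommuting
endomorphisms of `W s` with square `1`. The set `C` consists of the compact summands. -/
structure OrthogonalParts {k : ℕ} (d N : Fin k → ℕ)
    (E : ∀ s, Fin (N s) → Matrix (Fin (d s)) (Fin (d s)) ℂ)
    (P : ∀ s, Matrix (Fin (2 * g)) (Fin (d s)) ℂ) (Q : ∀ s, Matrix (Fin (d s)) (Fin (2 * g)) ℂ)
    (C : Set (Fin k)) (R : Module.End ℚ A.H1) (D : ℚ) : Prop where
  /-- the relations of the Clifford algebras -/
  square : ∀ s i, E s i * E s i = 1
  anti : ∀ s i j, i ≠ j → E s i * E s j = -(E s j * E s i)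
  /-- the Lie algebras `so (N s)` are `so (3)`, or `so (r)` with `r ≥ 6` -/
  rank : ∀ s, N s = 3 ∨ 6 ≤ N s
  /-- the summands are not zero -/
  pos : ∀ s, 0 < d s
  /-- the `Q s` are projections to independent summands -/
  proj : ∀ s, Q s * P s = 1
  independent : ∀ s t, s ≠ t → Q s * P t = 0
  /-- the summands are stable under `𝔤` -/
  stable : ∀ s X, InLie A X → P s * Q s * toC A X = toC A X * (P s * Q s)
  /-- `𝔤` acts through the orthogonal Lie algebras and the scalars -/
  acts : ∀ s X, InLie A X →
    ∃ t : ℂ, Q s * toC A X * P s + t • (1 : Matrix (Fin (d s)) (Fin (d s)) ℂ) ∈ orth (E s)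
  /-- the associative algebra generated by `𝔤 ⊗ ℂ` contains elements which act like `E s i * E s j` on
  `W s`, and by zero on the other summands -/
  separate : ∀ s i j, i ≠ j → ∃ Y ∈ Algebra.adjoin ℂ (lieC A : Set (EndC A)),
    E s i * E s j = Q s * Y * P s ∧ ∀ t, t ≠ s → Q t * Y * P t = 0
  /-- the complex structure acts on the compact summands by the scalar `i` -/
  compact : ∀ s ∈ C, (complexStructure A).map (fun x => (x : ℂ)) * P s = Complex.I • P s
  /-- the complex structure acts on the noncompact summands through the orthogonal Lie algebra -/
  noncompact : ∀ s ∉ C, Q s * (complexStructure A).map (fun x => (x : ℂ)) * P s ∈ orth (E s)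
  /-- the kernel of the action of the derived algebra on a noncompact summand is defined over the
  real numbers (the factor corresponds to a real place) -/
  real : ∀ s ∉ C, ∀ Y ∈ derivedC A, Y * P s = 0 → Y.map (starRingEnd ℂ) * P s = 0
  /-- the sum of the summands is the eigenspace of a rational endomorphism `R` for `i √D` -/
  D_pos : 0 < D
  cube : R * R * R = -(D • R)
  eigenspace : ∑ s, P s * Q s = (-(1 / (2 * (D : ℂ)))) •
    (toC A R * toC A R + (Complex.I * (Real.sqrt (D : ℝ) : ℂ)) • toC A R)

/-- `X` is in the Hodge part `𝔤₀` of `𝔤`: it is in every rational subspace `L` with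
`[𝔤, 𝔤] ⊆ L ⊆ 𝔤` whose real span contains the complex structure. (By the theorem of Deligne `𝔤` is the
Lie algebra of the Hodge group of `A`, so that all elements of `𝔤` are in the Hodge part.) -/
def InHodgePart (X : Module.End ℚ A.H1) : Prop :=
  ∀ L : Submodule ℚ (Module.End ℚ A.H1), derivedLie A ≤ L → (∀ Y ∈ L, InLie A Y) →
    complexStructure A ∈ Submodule.span ℝ {Y : Matrix (Fin (2 * g)) (Fin (2 * g)) ℝ |
      ∃ X ∈ L, Y = Matrix.of fun i j => ((X (Pi.single j 1) i : ℚ) : ℝ)} → X ∈ L

/-- The element `X` acts on the summands `W s` and `W t` by elements of the orthogonal Lie algebras and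
the same scalar `- c`. -/
def SameScalar {k : ℕ} {d N : Fin k → ℕ} (E : ∀ s, Fin (N s) → Matrix (Fin (d s)) (Fin (d s)) ℂ)
    (P : ∀ s, Matrix (Fin (2 * g)) (Fin (d s)) ℂ) (Q : ∀ s, Matrix (Fin (d s)) (Fin (2 * g)) ℂ)
    (s t : Fin k) (X : Module.End ℚ A.H1) : Prop :=
  ∃ c : ℂ, Q s * toC A X * P s + c • (1 : Matrix (Fin (d s)) (Fin (d s)) ℂ) ∈ orth (E s) ∧
    Q t * toC A X * P t + c • (1 : Matrix (Fin (d t)) (Fin (d t)) ℂ) ∈ orth (E t)

/-- **The twists.** If all elements of the Hodge part of `𝔤` have the same scalars on two different
summands (with orthogonal Lie algebras of the same rank), then this is true for all elements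
of `𝔤`. -/
def Twists {k : ℕ} {d N : Fin k → ℕ} (E : ∀ s, Fin (N s) → Matrix (Fin (d s)) (Fin (d s)) ℂ)
    (P : ∀ s, Matrix (Fin (2 * g)) (Fin (d s)) ℂ) (Q : ∀ s, Matrix (Fin (d s)) (Fin (2 * g)) ℂ) :
    Prop :=
  ∀ s t, s ≠ t → N s = N t → (∀ X, InHodgePart A X → SameScalar A E P Q s t X) →
    ∀ X, InLie A X → SameScalar A E P Q s t X

/-! ### Motives -/

variable {s n : ℕ} (r : Fin s → ℕ) (w : Fin s → ℤ)

/-- The Betti realization of the sum of the motives `h^1(A) ^ {⊗ r i} (w i)`: families of multilinear
forms in `r i` variables in the rational homology. -/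
abbrev Tensors : Type := ∀ i : Fin s, MultilinearMap ℚ (fun _ : Fin (r i) => A.H1) ℚ

variable {A r}

/-- `M` is the matrix of the action of the endomorphism `X` of the rational homology of `A` (as a
derivation) on the space of tensors with the basis `B`. -/
def IsLieMatrix (B : Fin n → Tensors A r) (X : Module.End ℚ A.H1)
    (M : Matrix (Fin n) (Fin n) ℚ) : Prop :=
  ∀ a i v, ∑ k, B a i (Function.update v k (X (v k))) = ∑ b, M b a * B b i v

/-- The subspace with the basis `B` is the Betti realization of a direct factor `M` of the sum of the
motives `h^1(A) ^ {⊗ r i} (w i)`, and `P` is the matrix of the periods of `M` for the basis `B` and for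
some basis of the de Rham realization of `M` over `ℚ̄`. -/
structure IsMotive (B : Fin n → Tensors A r) (P : Matrix (Fin n) (Fin n) ℂ) : Prop where
  /-- `B` is a basis of a subspace -/
  basis : LinearIndependent ℚ B
  /-- the subspace is stable under `𝔤` -/
  lie : ∀ X, InLie A X → ∃ M : Matrix (Fin n) (Fin n) ℚ, IsLieMatrix B X M
  /-- the subspace is stable under the weights -/
  weight : ∃ M : Matrix (Fin n) (Fin n) ℚ, ∀ a i v,
    ((r i : ℚ) - 2 * w i) * B a i v = ∑ b, M b a * B b i v
  /-- the de Rham realization has a basis of elements with algebraic coefficients in terms of the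
  tensor products of the elements of the basis of `H^1_dR(A / ℚ̄)` -/
  deRham : ∃ c : Fin n → ∀ i : Fin s, (Fin (r i) → Fin g ⊕ Fin g) → ℂ,
    (∀ a i J, IsAlgebraic ℚ (c a i J)) ∧ ∀ a i (v : Fin (r i) → A.H1),
      ∑ J, c a i J * ∏ k, A.dR (J k) (v k) =
        (2 * Real.pi * Complex.I) ^ (w i) * ∑ b, P b a * (B b i v : ℂ)
  /-- the matrix of the periods is invertible -/
  det : P.det ≠ 0

/-! ### The Mumford-Tate domain -/

/-- `N` is the matrix of the action on `M` of the multiplication with `i` on `H_1(A, ℝ) = ℂ ^ g` (as a
derivation): the generator of the Lie algebra of the circle in the Hodge structure of `M`. -/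
def IsComplexStructure (B : Fin n → Tensors A r) (N : Matrix (Fin n) (Fin n) ℝ) : Prop :=
  ∀ a i (j : Fin (r i) → Fin (2 * g)),
    ∑ k, ∑ l : Fin (2 * g), A.lam.repr (Complex.I • A.lam (j k)) l *
        (B a i (Function.update (fun p => Pi.single (j p) 1) k (Pi.single l 1)) : ℝ) =
      ∑ b, N b a * (B b i (fun p => Pi.single (j p) 1) : ℝ)

/-- The part of the Hodge group which acts trivially on the noncompact summands acts trivially
on the Mumford-Tate domain of `M`: if an element of `[𝔤, 𝔤] ⊗ ℂ`, which acts on `H_1(A, ℂ)` by `p.1`
and on `M` by `p.2`, acts trivially on all summands `W s`, `s ∉ C`, then `p.2` commutes with the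
complex structure `N` of `M`. -/
def DomainOf {k : ℕ} {d : Fin k → ℕ} (P : ∀ s, Matrix (Fin (2 * g)) (Fin (d s)) ℂ)
    (C : Set (Fin k)) (B : Fin n → Tensors A r) (N : Matrix (Fin n) (Fin n) ℝ) : Prop :=
  ∀ p ∈ Submodule.span ℂ {p : EndC A × Matrix (Fin n) (Fin n) ℂ | ∃ X ∈ derivedLie A,
      ∃ M : Matrix (Fin n) (Fin n) ℚ, IsLieMatrix B X M ∧
        p = (toC A X, M.map fun q => (q : ℂ))},
    (∀ s ∉ C, p.1 * P s = 0) →
      p.2 * N.map (fun x => (x : ℂ)) = N.map (fun x => (x : ℂ)) * p.2

/-- The Lie algebra of the Hodge group of `M`: the smallest rational Lie algebra whose real span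
contains the complex structure `N`. -/
def hodgeLie (N : Matrix (Fin n) (Fin n) ℝ) : Submodule ℚ (Matrix (Fin n) (Fin n) ℚ) :=
  sInf {L | (∀ x ∈ L, ∀ y ∈ L, x * y - y * x ∈ L) ∧
    N ∈ Submodule.span ℝ {M | ∃ x ∈ L, M = x.map fun q => (q : ℝ)}}

/-- The derived algebra. -/
def derived (L : Submodule ℚ (Matrix (Fin n) (Fin n) ℚ)) :
    Submodule ℚ (Matrix (Fin n) (Fin n) ℚ) :=
  Submodule.span ℚ {z | ∃ x ∈ L, ∃ y ∈ L, z = x * y - y * x}

/-- The centre of the Lie algebra acts trivially: an element of `𝔤` which acts on `M` like a central
element acts trivially. -/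
def CentreActsTrivially (B : Fin n → Tensors A r) : Prop :=
  ∀ X, InLie A X → (∀ Y, InLie A Y → IsLieMatrix B (X * Y - Y * X) 0) → IsLieMatrix B X 0

/-! ### Algebraic groups, torsors and the Mumford-Tate group -/

/-- A subgroup of `GL_R(ℂ)` defined by polynomials with rational coefficients. -/
def IsAlgebraicSubgroup {R : Type} [Fintype R] [DecidableEq R] (G : Subgroup (GL R ℂ)) : Prop :=
  ∃ I : Set (MvPolynomial (R × R) ℚ), ∀ x : GL R ℂ, x ∈ G ↔
    ∀ p ∈ I, MvPolynomial.aeval (fun b : R × R => (x : Matrix R R ℂ) b.1 b.2) p = 0

/-- The torsor `G · T⁻¹` of `G`: the matrices `F` such that `F T` is an element of `G`. It is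
defined over `ℚ̄` if `T` is a matrix with algebraic entries. -/
def torsor (G : Subgroup (GL (Fin n) ℂ)) (T : Matrix (Fin n) (Fin n) ℂ) :
    Set (Matrix (Fin n) (Fin n) ℂ) :=
  {F | ∃ x ∈ G, (x : Matrix (Fin n) (Fin n) ℂ) = F * T}

variable (A) in
/-- The Hodge structure of `H^1(A)`: the complex number `z` acts on `H_1(A, ℝ) = ℂ ^ g` by
multiplication, and on `H^1(A, ℝ)` by the transposed map, here in the basis of `H^1(A, ℚ)` which is
dual to the basis of the lattice. -/
def hodge (z : ℂ) : Matrix (Fin (2 * g)) (Fin (2 * g)) ℂ :=
  Matrix.of fun i j => ((A.lam.repr (z • A.lam i) j : ℝ) : ℂ)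

/-- `R` is the matrix of the action of the complex number `z` on `M`, in the Hodge structure given by
those of `H^1(A)` and of the Tate motives (`z` acts on `ℚ(1)` by `(z z̄)⁻¹`). -/
def IsHodgeMatrix (B : Fin n → Tensors A r) (z : ℂ) (R : Matrix (Fin n) (Fin n) ℂ) : Prop :=
  ∀ a i (j : Fin (r i) → Fin (2 * g)),
    ∑ j' : Fin (r i) → Fin (2 * g), (∏ k, hodge A z (j k) (j' k)) *
        (B a i (fun k => Pi.single (j' k) 1) : ℂ) =
      (z * (starRingEnd ℂ) z) ^ (w i) * ∑ b, R b a * (B b i (fun k => Pi.single (j k) 1) : ℂ)

/-- The Mumford-Tate group of `M`: the smallest algebraic group over `ℚ` which contains the image of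
the Deligne torus. -/
def mumfordTate (B : Fin n → Tensors A r) : Subgroup (GL (Fin n) ℂ) :=
  sInf {G | IsAlgebraicSubgroup G ∧ ∀ z : ℂ, z ≠ 0 → ∃ x ∈ G,
    IsHodgeMatrix w B z (x : Matrix (Fin n) (Fin n) ℂ)}

/-- **Theorem.** Let `W s` be orthogonal parts of `H_1(A, ℂ)`, with the compact summands `C`, and let
`Twists` be satisfied. Let `M` be a motive in the tensor category generated by `h^1(A)` and the
Tate motives, with the matrix `Per` of periods and the complex structure `J`, such that the part of the
Hodge group of `A` which acts trivially on the noncompact summands acts trivially on the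
Mumford-Tate domain of `M`. Let `G` be an algebraic group over `ℚ` with a torsor over `ℚ̄` which
contains `Per`.

1. For all elements `Z` of the derived algebra of the Lie algebra of the Hodge group of `M` and all
   complex numbers `t` the matrix `exp (t Z)` is in `G`.
2. If the centre of the Lie algebra acts trivially on `M`, then the Mumford-Tate group of `M` is
   contained in `G`. -/
theorem result {g m n k : ℕ} (A : AbVar g) (d N : Fin k → ℕ)
    (E : ∀ s, Fin (N s) → Matrix (Fin (d s)) (Fin (d s)) ℂ)
    (P : ∀ s, Matrix (Fin (2 * g)) (Fin (d s)) ℂ) (Q : ∀ s, Matrix (Fin (d s)) (Fin (2 * g)) ℂ)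
    (C : Set (Fin k)) (R : Module.End ℚ A.H1) (D : ℚ)
    (hA : OrthogonalParts A d N E P Q C R D) (hC : Twists A E P Q)
    (r : Fin m → ℕ) (w : Fin m → ℤ) (B : Fin n → Tensors A r) (Per : Matrix (Fin n) (Fin n) ℂ)
    (hM : IsMotive w B Per) (J : Matrix (Fin n) (Fin n) ℝ) (hJ : IsComplexStructure B J)
    (hD : DomainOf P C B J)
    (G : Subgroup (GL (Fin n) ℂ)) (hG : IsAlgebraicSubgroup G) (T : Matrix (Fin n) (Fin n) ℂ)
    (hT : ∀ i j, IsAlgebraic ℚ (T i j)) (hP : Per ∈ torsor G T) :
    (∀ Z ∈ derived (hodgeLie J), ∀ t : ℂ, ∃ x ∈ G,
      (x : Matrix (Fin n) (Fin n) ℂ) = NormedSpace.exp (t • Z.map fun q => (q : ℂ))) ∧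
    (CentreActsTrivially B → mumfordTate w B ≤ G) := by
  have horth : ∀ s, orth (E s) = L0h14.QU.so1 (E s) := fun s => by
    unfold orth L0h14.QU.so1 N113.BT.soM
    congr 1
    ext Y
    constructor
    · rintro ⟨i, j, h, rfl⟩
      exact ⟨i, j, h, rfl, rfl⟩
    · rintro ⟨i, j, h, -, rfl⟩
      exact ⟨i, j, h, rfl⟩
  have hder : derivedLie A = Pool.Agent.Y102.der A.NA := by
    refine le_antisymm (Submodule.span_mono ?_) (Submodule.span_mono ?_)
    · rintro _ ⟨X, hX, Y, hY, rfl⟩
      exact ⟨X, hX, Y, hY, rfl⟩
    · rintro _ ⟨X, hX, Y, hY, rfl⟩
      exact ⟨X, hX, Y, hY, rfl⟩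
  have hJR : complexStructure A = L0h14.QU.JR A := by
    ext i j
    rw [L0h14.QU.JR_apply]
    rfl
  have hsys : L0h14.QU.Sys A ⟨d, N, E, P, Q⟩ C R D :=
    { sq := hA.square
      anti := hA.anti
      rank := hA.rank
      pos := hA.pos
      qp := hA.proj
      qp' := hA.independent
      st := hA.stable
      act := fun s X hX => by
        obtain ⟨t, ht⟩ := hA.acts s X hX
        rw [horth] at ht
        exact ⟨t, ht⟩
      sep := hA.separate
      cpt := fun s hs => by
        rw [← hJR]
        exact hA.compact s hs
      ncpt := fun s hs => by
        rw [← hJR]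
        change _ ∈ L0h14.QU.so1 (E s)
        rw [← horth]
        exact hA.noncompact s hs
      real := fun s hs Y hY => by
        rw [← hder] at hY
        exact hA.real s hs Y hY
      D0 := hA.D_pos
      cube := hA.cube
      sum := hA.eigenspace
      same := fun s t hst hNN h0 X hX => by
        have h1 := hC s t hst hNN (fun X hX => ?_) X hX
        · obtain ⟨c, e1, e2⟩ := h1
          rw [horth] at e1 e2
          exact ⟨c, e1, e2⟩
        · obtain ⟨c, e1, e2⟩ := h0 X fun L l1 l2 l3 => by
            rw [← hder] at l1
            rw [← hJR] at l3
            exact hX L l1 l2 l3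
          refine ⟨c, ?_, ?_⟩
          · rw [horth]
            exact e1
          · rw [horth]
            exact e2 }
  classical
  have hrig := hsys.pt
  obtain ⟨hM', Wt, hW⟩ : N208.AM.Mot w B Per ∧ ∃ Wt, N208.AM.WRel w B Wt := by
    have hwt : ∃ M, N208.AM.WRel w B M := by
      obtain ⟨M, h⟩ := hM.weight
      refine ⟨M, fun a i => MultilinearMap.ext fun v => ?_⟩
      rw [_root_.smul_apply, _root_.sum_apply, smul_eq_mul, h a i v]
      rfl
    refine ⟨⟨hM.basis, fun X hX => ?_, hwt, hM.det, hM.deRham⟩, hwt⟩
    obtain ⟨M, h⟩ := hM.lie X hX
    refine ⟨M, fun a i => MultilinearMap.ext fun v => ?_⟩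
    rw [N208.AM.dact_apply, _root_.sum_apply, h a i v]
    rfl
  have hrelL : ∀ X M, N208.AM.Rel B X M ↔ IsLieMatrix B X M := by
    intro X M
    constructor
    · intro h a i v
      have h1 := congrArg (fun φ : MultilinearMap ℚ (fun _ : Fin (r i) => A.H1) ℚ => φ v) (h a i)
      simp only [N208.AM.dact_apply, _root_.sum_apply, _root_.smul_apply, smul_eq_mul] at h1
      exact h1
    · intro h a i
      refine MultilinearMap.ext fun v => ?_
      rw [N208.AM.dact_apply, _root_.sum_apply, h a i v]
      rfl
  have hb : ∀ j : Fin (2 * g), A.bas j = Pi.single j 1 := fun j => by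
    unfold AbVar.bas
    rw [Pi.basisFun_apply]
  have hrel : ∀ z R, N208.AM.HRel w B z R → IsHodgeMatrix w B z R := by
    intro z R h a i j
    have h1 := h a i j
    simp only [hb] at h1
    exact h1
  have hNC : CentreActsTrivially B → N208.AM.NoCentre B := fun hc X hX h =>
    (hrelL X 0).2 (hc X hX fun Y hY => (hrelL _ 0).1 (h Y hY))
  -- the complex structure
  have hNR : N208.AM.RelR B AbVar.JJ J := by
    intro a i
    refine Basis.ext_multilinear (fun _ => A.lam) fun j => ?_
    have h1 := hJ a i j
    rw [N208.AM.dact_apply, _root_.sum_apply]
    have h2 : (fun p => A.lam (j p)) = fun p => A.per (Pi.single (j p) 1) := by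
      funext p
      rw [← hb, A.per_bas]
    have h3 : ∀ b, (J b a • A.Phi (B b i)) (fun p => A.lam (j p)) =
        J b a * (B b i (fun p => Pi.single (j p) 1) : ℝ) := fun b => by
      rw [_root_.smul_apply, smul_eq_mul, h2, A.Phi_per]
    rw [Finset.sum_congr rfl fun b _ => h3 b, ← h1]
    refine Finset.sum_congr rfl fun k _ => ?_
    rw [AbVar.JJ_apply, ← A.lam.sum_repr (Complex.I • A.lam (j k)), MultilinearMap.map_update_sum]
    simp only [A.lam.sum_repr]
    refine Finset.sum_congr rfl fun l _ => ?_
    rw [MultilinearMap.map_update_smul, smul_eq_mul]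
    congr 1
    have h4 : A.lam l = A.per (Pi.single l 1) := by rw [← hb, A.per_bas]
    rw [h2, h4, N208.AM.update_per, A.Phi_per]
  have hα : ∀ p ∈ N113.BT.pC B (Pool.Agent.Y102.der A.NA),
      matE (2 * g) (∑ s ∈ Finset.univ.filter fun s => s ∉ C, P s * Q s) * p.1 = 0 →
      p.2 * N208.AM.cxm J = N208.AM.cxm J * p.2 := by
    refine N113.BT.alpha_of fun p hp h0 => ?_
    have hp1 : p.1 ∈ L0h14.QU.CS A.NA := by
      refine Submodule.span_induction (p := fun p _ => p.1 ∈ L0h14.QU.CS A.NA) ?_ ?_ ?_ ?_ hp
      · rintro _ ⟨X, hX, M, hM, rfl⟩
        exact L0h14.QU.toC_mem (N208.AM.der_NA_le hX)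
      · exact Submodule.zero_mem _
      · intro a b _ _ ha hb
        exact Submodule.add_mem _ ha hb
      · intro c a _ ha
        exact Submodule.smul_mem _ c ha
    refine hD p ?_ (hsys.ker_iff hp1 h0)
    refine (Submodule.span_mono ?_) hp
    rintro _ ⟨X, hX, M, hM, rfl⟩
    refine ⟨X, ?_, M, (hrelL _ _).1 hM, rfl⟩
    rw [hder]
    exact hX
  -- the group
  have hdet : T.det ≠ 0 := by
    obtain ⟨x, -, hxT⟩ := hP
    intro h0
    have h1 : (x : Matrix (Fin n) (Fin n) ℂ).det = 0 := by
      rw [hxT, Matrix.det_mul, h0, mul_zero]
    exact (Matrix.GeneralLinearGroup.det x).ne_zero h1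
  obtain ⟨T', h1, h2⟩ := Pool.Agent.R917.alg_inv hT hdet
  obtain ⟨x, hx, hxT⟩ := hP
  have hH : N208.AM.PtM Per _ := ⟨Pool.Agent.R917.algGrp_of hG, T, T', h1, h2, x, hx, hxT⟩
  refine ⟨fun Z hZ t => ?_, fun hA => ?_⟩
  · obtain ⟨L, hL1, hL2, hL3⟩ := L0h14.QU.main_der3 hM' hW hH hrig hNR hα
    have h3 : hodgeLie J ≤ L := sInf_le ⟨hL1, hL2⟩
    have h4 : derived (hodgeLie J) ≤
        N208.AM.LQ {M | ∃ x ∈ G, (x : Matrix (Fin n) (Fin n) ℂ) = M} := by
      unfold derived
      rw [Submodule.span_le]
      rintro _ ⟨x, hx, y, hy, rfl⟩
      exact hL3 x (h3 hx) y (h3 hy)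
    exact Pool.Agent.R917.exp_mem hH.grp fun d => (h4 hZ d).smul t
  · have hc : N208.AM.NoCentre B := hNC hA
    refine sInf_le ⟨hG, fun z hz => ?_⟩
    obtain ⟨⟨x, hx, hx'⟩, h4⟩ := L0h14.QU.main_B3 hM' hW hH hc hrig hNR hα hz
    refine ⟨x, hx, ?_⟩
    rw [hx']
    exact hrel _ _ h4

end Pool.Agent.Results.MP_57341d_ag.OrthogonalTypeAllPlaces
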